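import Pool.Agent.N818.TC.Rat
import Pool.Agent.R426.QD.Mn
import Pool.Agent.Y687.K2.RankForm
import Pool.Agent.Y698.Tx

/-!
# The L-functions over `ℚ` of the twists of `X_0(49)` by the integers `D ≡ 1 mod 4`
-/

set_option autoImplicit false
set_option linter.unusedSectionVars false

namespace Pool.Agent.N818.TC

open Pool.Agent.Y698 Pool.Agent.Y698.SG
open Pool.Agent.R426.QD (r4 Ev exists_fac4 ev_fac)
open Pool.Agent.W192.HK (sp nm)
open scoped Classical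

/-- the coefficients of the short model -/
def A (D : ℤ) : ℤ := -35 * D ^ 2

/-- the coefficients of the short model -/
def B (D : ℤ) : ℤ := -98 * D ^ 3

theorem disc (D : ℤ) : 4 * A D ^ 3 + 27 * B D ^ 2 = 2 ^ 8 * 7 ^ 3 * D ^ 6 := by
  unfold A B
  ring

/-- the character of `ℚ(√D)` -/
noncomputable def ch (D : ℤ) (n : ℕ) : ℂ := ((jacobiSym (n : ℤ) D.natAbs : ℤ) : ℂ)

lemma ch_one (D : ℤ) : ch D 1 = 1 := by
  unfold ch
  rw [Nat.cast_one, jacobiSym.one_left, Int.cast_one]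

lemma ch_mul (D : ℤ) (m n : ℕ) : ch D (m * n) = ch D m * ch D n := by
  unfold ch
  rw [Nat.cast_mul, jacobiSym.mul_left, Int.cast_mul]

lemma natAbs_mod {D : ℤ} (h : D % 4 = 1) : (0 < D ∧ (D.natAbs : ℤ) = D ∧ D.natAbs % 4 = 1) ∨
    (D < 0 ∧ (D.natAbs : ℤ) = -D ∧ D.natAbs % 4 = 3) := by
  omega

/-- reciprocity -/
lemma recip {D : ℤ} (h : D % 4 = 1) {p : ℕ} (hp : Odd p) :
    jacobiSym D p = jacobiSym (p : ℤ) D.natAbs := by
  rcases natAbs_mod h with ⟨-, h2, h3⟩ | ⟨-, h2, h3⟩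
  · rw [← jacobiSym.quadratic_reciprocity_one_mod_four h3 hp, h2]
  · have e : D = -1 * (D.natAbs : ℤ) := by rw [h2]; ring
    conv_lhs => rw [e]
    rw [jacobiSym.mul_left, jacobiSym.at_neg_one hp]
    rcases Nat.odd_mod_four_iff.1 (Nat.odd_iff.1 hp) with h7 | h7
    · rw [ZMod.χ₄_nat_one_mod_four h7, one_mul]
      exact (jacobiSym.quadratic_reciprocity_one_mod_four h7
        (Nat.odd_iff.2 (by omega))).symm
    · rw [ZMod.χ₄_nat_three_mod_four h7,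
        jacobiSym.quadratic_reciprocity_three_mod_four h3 h7]
      ring

/-- the number of points modulo an odd prime -/
theorem count_eq {D : ℤ} (h4 : D % 4 = 1) {p : ℕ} (hp : p.Prime) (hp2 : p ≠ 2) (hp7 : p ≠ 7)
    (hpD : ¬ (p : ℤ) ∣ D) :
    ((((p : ℤ) - (Nat.card {q : ZMod p × ZMod p // q.2 ^ 2 = q.1 ^ 3 + (A D : ZMod p) * q.1 +
      (B D : ZMod p)} : ℤ)) : ℤ) : ℂ) = ch D p * bc p := by
  have : Fact p.Prime := ⟨hp⟩
  have hF : ringChar (ZMod p) ≠ 2 := by rwa [ZMod.ringChar_zmod_n]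
  have hD0 : ((D : ℤ) : ZMod p) ≠ 0 := by
    intro h
    exact hpD ((ZMod.intCast_zmod_eq_zero_iff_dvd _ _).1 h)
  have htw := count_tw hF ((-35 : ℤ) : ZMod p) ((-98 : ℤ) : ZMod p) hD0
  rw [ZMod.card] at htw
  have e1 : ((p : ℤ) - Nat.card {x : ZMod p × ZMod p // x.2 ^ 2 = x.1 ^ 3 +
      (A D : ZMod p) * x.1 + (B D : ZMod p)}) =
      quadraticChar (ZMod p) ((D : ℤ) : ZMod p) *
        ((p : ℤ) - Nat.card (Aff (ZMod p))) := by
    unfold Aff A B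
    rw [← htw]
    push_cast
    rfl
  have hqc : quadraticChar (ZMod p) ((D : ℤ) : ZMod p) = jacobiSym (p : ℤ) D.natAbs := by
    have h3 : quadraticChar (ZMod p) ((D : ℤ) : ZMod p) = legendreSym p D := rfl
    rw [h3, jacobiSym.legendreSym.to_jacobiSym]
    exact recip h4 (hp.odd_of_ne_two hp2)
  have hb := bc_odd hp hp2 hp7
  rw [e1, hqc, hb]
  unfold ch
  push_cast
  ring

lemma ch_sq {D : ℤ} {p : ℕ} (hp : p.Prime) (hpD : ¬ (p : ℤ) ∣ D) : ch D p ^ 2 = 1 := by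
  have h1 : Int.gcd (p : ℤ) (D.natAbs : ℤ) = 1 := by
    rw [Int.gcd_natCast_natCast]
    rw [← Nat.Coprime, hp.coprime_iff_not_dvd]
    intro h
    exact hpD (Int.natCast_dvd.2 h)
  have h2 := jacobiSym.sq_one h1
  unfold ch
  exact_mod_cast h2

lemma ch_zero {D : ℤ} (hD : D ≠ 0) {p : ℕ} (hp : p.Prime) (hpD : (p : ℤ) ∣ D) : ch D p = 0 := by
  unfold ch
  have hne : NeZero D.natAbs := ⟨Int.natAbs_ne_zero.2 hD⟩
  have h1 : jacobiSym (p : ℤ) D.natAbs = 0 := by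
    rw [jacobiSym.eq_zero_iff_not_coprime, Int.gcd_natCast_natCast]
    intro h2
    have h3 := (hp.coprime_iff_not_dvd).1 h2
    exact h3 (Int.natCast_dvd.1 hpD)
  rw [h1, Int.cast_zero]

/-- the Euler factors -/
noncomputable def gg (D : ℤ) (s : ℂ) (p : ℕ) : ℂ :=
  (1 - bc p * (ch D p * ((p : ℕ) : ℂ) ^ (-s)) + ec p * (ch D p * ((p : ℕ) : ℂ) ^ (-s)) ^ 2)⁻¹

theorem gg_good {D : ℤ} (h4 : D % 4 = 1) {p : ℕ} (hp : p.Prime) (hp2 : p ≠ 2) (hp7 : p ≠ 7)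
    (hpD : ¬ (p : ℤ) ∣ D) (s : ℂ) : gg D s p = Pool.Agent.Y687.fac (A D) (B D) s p := by
  unfold gg Pool.Agent.Y687.fac
  rw [count_eq h4 hp hp2 hp7 hpD]
  have hp0 : (p : ℂ) ≠ 0 := Nat.cast_ne_zero.2 hp.ne_zero
  congr 1
  have e1 : ec p = p := if_neg hp7
  rw [mul_pow, ch_sq hp hpD, e1, one_mul]
  have e2 : (p : ℂ) ^ (1 - 2 * s) = p * ((p : ℂ) ^ (-s)) ^ 2 := by
    have e3 : (1 : ℂ) - 2 * s = 1 + (-s + -s) := by ring
    rw [e3, Complex.cpow_add _ _ hp0, Complex.cpow_add _ _ hp0, Complex.cpow_one]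
    ring
  rw [e2]
  ring

theorem gg_seven (D : ℤ) (s : ℂ) : gg D s 7 = 1 := by
  unfold gg
  have h1 := bc_seven 0
  rw [zero_add, pow_one] at h1
  have h2 : ec 7 = 0 := if_pos rfl
  rw [h1, h2, zero_mul, zero_mul, sub_zero, add_zero, inv_one]

theorem gg_bad {D : ℤ} (hD : D ≠ 0) {p : ℕ} (hp : p.Prime) (hpD : (p : ℤ) ∣ D) (s : ℂ) :
    gg D s p = 1 := by
  unfold gg
  rw [ch_zero hD hp hpD]
  simp

/-- the factor at two -/
noncomputable def a2 (D : ℤ) (s : ℂ) : ℂ :=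
  1 - ch D 2 * (2 : ℂ) ^ (-s) + 2 * (ch D 2 * (2 : ℂ) ^ (-s)) ^ 2

theorem gg_two (D : ℤ) (s : ℂ) : gg D s 2 = (a2 D s)⁻¹ := by
  unfold gg a2
  have h2 : ec 2 = 2 := by
    unfold ec
    rw [if_neg (by norm_num)]
    norm_num
  rw [bc_two, h2, one_mul]
  norm_num

lemma two_ndvd {D : ℤ} (h4 : D % 4 = 1) : ¬ ((2 : ℕ) : ℤ) ∣ D := by
  omega

theorem a2_ne {D : ℤ} (h4 : D % 4 = 1) {s : ℂ} (hs : (3 : ℝ) / 2 < s.re) : a2 D s ≠ 0 := by
  have h1 := ch_sq Nat.prime_two (two_ndvd h4)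
  have h2 : ‖ch D 2‖ = 1 := by
    have h3 : ‖ch D 2‖ ^ 2 = 1 := by rw [← norm_pow, h1, norm_one]
    have h4 := norm_nonneg (ch D 2)
    nlinarith
  have h3 : ‖(2 : ℂ) ^ (-s)‖ < 1 / 2 := by
    have e : (2 : ℂ) = ((2 : ℝ) : ℂ) := by norm_num
    rw [e, Complex.norm_cpow_eq_rpow_re_of_pos (by norm_num), Complex.neg_re]
    have h4 : (2 : ℝ) ^ (-s.re) < (2 : ℝ) ^ (-1 : ℝ) :=
      Real.rpow_lt_rpow_of_exponent_lt (by norm_num) (by linarith)
    rw [Real.rpow_neg_one] at h4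
    linarith
  intro h0
  unfold a2 at h0
  set x : ℂ := ch D 2 * (2 : ℂ) ^ (-s) with hx
  have hxn : ‖x‖ < 1 / 2 := by rw [hx, norm_mul, h2, one_mul]; exact h3
  have h5 : (1 : ℂ) = x - 2 * x ^ 2 := by linear_combination h0
  have h6 : (1 : ℝ) ≤ ‖x‖ + 2 * ‖x‖ ^ 2 := by
    calc (1 : ℝ) = ‖(1 : ℂ)‖ := norm_one.symm
      _ = ‖x - 2 * x ^ 2‖ := by rw [← h5]
      _ ≤ ‖x‖ + ‖2 * x ^ 2‖ := norm_sub_le _ _
      _ = ‖x‖ + 2 * ‖x‖ ^ 2 := by
        rw [norm_mul (2 : ℂ) (x ^ 2), norm_pow x 2, Complex.norm_ofNat]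
  have h7 := norm_nonneg x
  nlinarith

theorem a2_one {D : ℤ} (h4 : D % 4 = 1) : a2 D 1 ≠ 0 := by
  have h1 := ch_sq Nat.prime_two (two_ndvd h4)
  have h2 : ch D 2 = 1 ∨ ch D 2 = -1 := by
    have h4 : (ch D 2 - 1) * (ch D 2 + 1) = 0 := by linear_combination h1
    rcases mul_eq_zero.1 h4 with h5 | h5
    · exact Or.inl (sub_eq_zero.1 h5)
    · exact Or.inr (eq_neg_of_add_eq_zero_left h5)
  unfold a2
  have h3 : (2 : ℂ) ^ (-1 : ℂ) = 1 / 2 := by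
    rw [Complex.cpow_neg_one]
    norm_num
  rw [h3]
  rcases h2 with h | h
  · rw [h]; norm_num
  · rw [h]; norm_num

theorem a2_diff (D : ℤ) : Differentiable ℂ (a2 D) := by
  have h1 : Differentiable ℂ fun s : ℂ => (2 : ℂ) ^ (-s) :=
    differentiable_id.neg.const_cpow (Or.inl two_ne_zero)
  unfold a2
  exact ((differentiable_const _).sub (h1.const_mul _)).add (((h1.const_mul _).pow 2).const_mul _)

open Classical in
/-- the product over the primes of good reduction -/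
theorem hasProd_good {D : ℤ} (hD : D ≠ 0) (h4 : D % 4 = 1)
    {s z : ℂ} (hs : (3 : ℝ) / 2 < s.re) (h : HasProd (fun p : Nat.Primes => gg D s p) z) :
    HasProd (fun l : {l : ℕ // l.Prime ∧ ¬ ((l : ℤ) ∣ 2 * (4 * A D ^ 3 + 27 * B D ^ 2))} =>
      Pool.Agent.Y687.fac (A D) (B D) s l) (z * a2 D s) := by
  set φ : ℕ → ℂ := fun n => if n.Prime ∧ ¬ ((n : ℤ) ∣ 2 * (4 * A D ^ 3 + 27 * B D ^ 2)) then
    Pool.Agent.Y687.fac (A D) (B D) s n else 1 with hφ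
  have key : ∀ p : ℕ, p.Prime → gg D s p * (if p = 2 then a2 D s else 1) = φ p := by
    intro p hp
    have hpZ : Prime (p : ℤ) := Nat.prime_iff_prime_int.1 hp
    by_cases hp2 : p = 2
    · subst hp2
      rw [if_pos rfl, gg_two, inv_mul_cancel₀ (a2_ne h4 hs), hφ]
      simp only
      rw [if_neg]
      rintro ⟨-, h2⟩
      exact h2 (by exact_mod_cast dvd_mul_right _ _)
    rw [if_neg hp2, mul_one]
    by_cases hp7 : p = 7
    · subst hp7
      rw [gg_seven, hφ]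
      simp only
      rw [if_neg]
      rintro ⟨-, h2⟩
      apply h2
      rw [disc]
      push_cast
      exact ⟨2 * (2 ^ 8 * 7 ^ 2) * D ^ 6, by ring⟩
    by_cases hpS : (p : ℤ) ∣ D
    · rw [gg_bad hD hp hpS, hφ]
      simp only
      rw [if_neg]
      rintro ⟨-, h2⟩
      apply h2
      rw [disc]
      exact ((dvd_pow hpS (by norm_num)).mul_left _).mul_left _
    · rw [gg_good h4 hp hp2 hp7 hpS, hφ]
      simp only
      rw [if_pos]
      refine ⟨hp, fun h2 => ?_⟩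
      rw [disc] at h2
      have h2' : p ≠ 2 := hp2
      rcases hpZ.dvd_or_dvd h2 with h3 | h3
      · have h4 : p ∣ 2 := by exact_mod_cast h3
        exact hp2 ((Nat.prime_dvd_prime_iff_eq hp Nat.prime_two).1 h4)
      rcases hpZ.dvd_or_dvd h3 with h4 | h4
      · have h5 : p ∣ 2 ^ 8 * 7 ^ 3 := by exact_mod_cast h4
        rcases (Nat.Prime.dvd_mul hp).1 h5 with h6 | h6
        · exact hp2 ((Nat.prime_dvd_prime_iff_eq hp Nat.prime_two).1 (hp.dvd_of_dvd_pow h6))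
        · exact hp7 ((Nat.prime_dvd_prime_iff_eq hp (by norm_num)).1 (hp.dvd_of_dvd_pow h6))
      · exact hpS (hpZ.dvd_of_dvd_pow h4)
  have h1 : HasProd (fun p : Nat.Primes => if p = (⟨2, Nat.prime_two⟩ : Nat.Primes) then a2 D s
      else 1) (a2 D s) := hasProd_ite_eq _ _
  have h2 := h.mul h1
  have h3 : (fun p : Nat.Primes => gg D s p * (if p = (⟨2, Nat.prime_two⟩ : Nat.Primes) then
      a2 D s else 1)) = φ ∘ ((↑) : {p : ℕ | p.Prime} → ℕ) := by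
    funext p
    have h4 := key p p.2
    show _ = φ (p : ℕ)
    refine Eq.trans ?_ h4
    congr 1
    have h5 : (p = (⟨2, Nat.prime_two⟩ : Nat.Primes)) ↔ (p : ℕ) = 2 := Subtype.ext_iff
    by_cases h6 : (p : ℕ) = 2
    · rw [if_pos h6, if_pos (h5.2 h6)]
    · rw [if_neg h6, if_neg (fun h => h6 (h5.1 h))]
  rw [h3] at h2
  have h4 : HasProd φ (z * a2 D s) := (hasProd_subtype_iff_of_mulSupport_subset (by
    intro n hn
    rw [Function.mem_mulSupport] at hn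
    by_contra h5
    exact hn (if_neg fun h6 => h5 h6.1))).1 h2
  have h5 := (hasProd_subtype_iff_of_mulSupport_subset
    (s := {l : ℕ | l.Prime ∧ ¬ ((l : ℤ) ∣ 2 * (4 * A D ^ 3 + 27 * B D ^ 2))}) (by
    intro n hn
    rw [Function.mem_mulSupport] at hn
    by_contra h6
    exact hn (if_neg h6))).2 h4
  refine (congrArg (fun g => HasProd g (z * a2 D s)) (funext fun p => ?_)).mp h5
  simp only [Function.comp_apply]
  exact if_pos p.2

/-- there is a valuation above two -/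
lemma exists_v2 (h : ∀ (Γ : Type) [LinearOrderedCommGroupWithZero Γ] (v : Valuation ℂ Γ),
    ¬ v 2 < 1) : False := by
  obtain ⟨m, hm, hi⟩ := int_of_val (x := 1 / 2) fun Γ _ v hv => absurd hv (h Γ v)
  have e : (m : ℂ) * (1 / 2) = algebraMap ℚ ℂ ((m : ℚ) / 2) := by
    rw [map_div₀, map_intCast, map_ofNat]
    ring
  rw [e, isIntegral_algebraMap_iff (algebraMap ℚ ℂ).injective] at hi
  obtain ⟨y, hy⟩ := (IsIntegrallyClosed.isIntegral_iff (R := ℤ) (K := ℚ)).1 hi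
  have h1 : (m : ℚ) = ((2 * y : ℤ) : ℚ) := by
    have h2 : (y : ℚ) = (m : ℚ) / 2 := hy
    push_cast
    rw [h2]
    ring
  have h3 : m = 2 * y := by exact_mod_cast h1
  obtain ⟨k, hk⟩ := hm
  omega

/-- nonvanishing from valuations -/
theorem ne_zero_of {z Ω : ℂ} {e : ℕ}
    (key : ∀ (Γ : Type) [LinearOrderedCommGroupWithZero Γ] (v : Valuation ℂ Γ), v al < 1 →
      v 2 * v ((starRingEnd ℂ) z / Ω) = v 2 ^ e) : z ≠ 0 := by
  rintro rfl
  have key' : ∀ (Γ : Type) [LinearOrderedCommGroupWithZero Γ] (v : Valuation ℂ Γ), ¬ v al < 1 := by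
    intro Γ _ v hv
    have h1 := key Γ v hv
    rw [map_zero, zero_div, map_zero, mul_zero] at h1
    exact pow_ne_zero _ ((v.ne_zero_iff).2 two_ne_zero) h1.symm
  refine exists_v2 fun Γ _ v h2 => ?_
  have hcases : v al < 1 ∨ v bl < 1 := by
    by_contra hcon
    push Not at hcon
    have h3 : v 2 = v al * v bl := by rw [← al_mul_bl, map_mul]
    rw [h3] at h2
    have : (1 : Γ) * 1 ≤ v al * v bl := mul_le_mul' hcon.1 hcon.2
    rw [one_mul] at this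
    exact absurd h2 (not_lt.2 this)
  rcases hcases with h3 | h3
  · exact key' Γ v h3
  · exact key' Γ (v.comap (starRingEnd ℂ)) (by
      rw [Valuation.comap_apply, conj_al]; exact h3)

/-- the family of the prime elements dividing `D` -/
theorem exists_fam {D : ℤ} (hsq : Squarefree D) (h4 : D % 4 = 1) (h7 : ¬ (7 : ℤ) ∣ D) :
    ∃ S : Finset RR, (∀ p, p ∈ S ↔ Prime p ∧ p ∣ ((D : ℤ) : RR) ∧ r4 p = 1) ∧
      ((D : ℤ) : RR) = ∏ p ∈ S, p ∧ Ev S (fun p => p) := by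
  obtain ⟨j, hj⟩ : ∃ j : ℤ, D = 1 + 4 * j := ⟨D / 4, by omega⟩
  have hx4 : ∃ J : RR, ((D : ℤ) : RR) = 1 + 4 * J := ⟨(j : RR), by rw [hj]; push_cast; rfl⟩
  obtain ⟨S, hS, hx⟩ := exists_fac4 (sqf_int hsq h7) hx4
  have hf : ¬ fR ∣ ((D : ℤ) : RR) := by
    intro h
    have h1 := nR_dvd' h
    rw [nR_int'] at h1
    have h2 : nR fR = 7 := by
      have h3 := mul_cj fR
      have h4 : cj fR = -fR := by
        unfold fR
        rw [map_sub, map_mul, map_ofNat, map_one, Pool.Agent.R426.QC.cj_aR]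
        ring
      have h5 : ((nR fR : ℤ) : RR) = ((7 : ℤ) : RR) := by
        rw [← h3, h4]
        have := fR_sq
        push_cast
        linear_combination -this
      exact_mod_cast h5
    rw [h2] at h1
    exact h7 ((by norm_num : Prime (7 : ℤ)).dvd_of_dvd_pow h1)
  exact ⟨S, hS, hx, ev_fac hx4 hf hS (fun p hp => hp) (fun p _ q _ h => h) hx.symm⟩

/-- **the L-function and its central value** -/
theorem main {D : ℤ} (hsq : Squarefree D) (h4 : D % 4 = 1) (h7 : ¬ (7 : ℤ) ∣ D) {S : Finset RR}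
    (hS : ∀ p, p ∈ S ↔ Prime p ∧ p ∣ ((D : ℤ) : RR) ∧ r4 p = 1) (hE : Ev S (fun p => p)) :
    ∃ F : ℂ → ℂ, Differentiable ℂ F ∧
      (∀ s : ℂ, (3 : ℝ) / 2 < s.re → HasProd (fun p : Nat.Primes => gg D s p) (F s)) ∧
      ∀ (Γ : Type) [LinearOrderedCommGroupWithZero Γ] (v : Valuation ℂ Γ) (L : PeriodPair)
        (Ω : ℂ), LD L Ω → v al < 1 →
        (Pool.Agent.Y698.SG.gd (mc fun p => p) (mr fun p => p) S ≠ 0 →
          v 2 * v ((starRingEnd ℂ) (F 1) / Ω) = v 2 ^ S.card) ∧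
        (Pool.Agent.Y698.SG.gd (mc fun p => p) (mr fun p => p) S = 0 →
          v 2 * v ((starRingEnd ℂ) (F 1) / Ω) < v 2 ^ S.card) := by
  obtain ⟨j, hj⟩ : ∃ j : ℤ, D = 1 + 4 * j := ⟨D / 4, by omega⟩
  obtain ⟨F, g1, g2, g3⟩ := Pool.Agent.R426.QD.val_D hE
  refine ⟨F, g1, fun s hs => ?_, g3⟩
  have h1 : HasSum (fun I : Ideal RR => psi I * ch D (nI I) * (nm I : ℂ) ^ (-s)) (F s) := by
    refine (g2 s hs).congr_fun ?_
    intro I
    obtain ⟨g, rfl⟩ := exists_gen I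
    rw [Pool.Agent.R426.QD.Xs_prod hE.fa hE.tp, sym_prod hsq h7 hj hS g]
    unfold ch
    rw [nI_sp']
  exact prod_gen (ch_one D) (ch_mul D) h1

/-- **the rank form** -/
theorem rank_form {D : ℤ} (hsq : Squarefree D) (h4 : D % 4 = 1) (h7 : ¬ (7 : ℤ) ∣ D) {S : Finset RR}
    (hS : ∀ p, p ∈ S ↔ Prime p ∧ p ∣ ((D : ℤ) : RR) ∧ r4 p = 1) (hE : Ev S (fun p => p))
    (hg : Pool.Agent.Y698.SG.gd (mc fun p => p) (mr fun p => p) S ≠ 0)
    (hfin : {q : ℚ × ℚ | q.2 ^ 2 = q.1 ^ 3 + (A D : ℚ) * q.1 + (B D : ℚ)}.Finite) :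
    Pool.Agent.Y687.RankBSD (A D) (B D) := by
  obtain ⟨F, g1, g2, g3⟩ := main hsq h4 h7 hS hE
  obtain ⟨L, Ω, hL⟩ := exists_LD
  refine Pool.Agent.Y687.rankBSD (f := fun s => F s * a2 D s) (g1.mul (a2_diff D))
    (fun s hs => hasProd_good hsq.ne_zero h4 hs (g2 s hs)) (mul_ne_zero ?_ (a2_one h4)) hfin
  exact ne_zero_of (Ω := Ω) fun Γ _ v hv => (g3 Γ v L Ω hL hv).1 hg

end Pool.Agent.N818.TC
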