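import Pool.Agent.N818.TC.Crit0
import Pool.Agent.N818.TC.Lf
import Pool.Agent.N973.ND.Fin
import Pool.Agent.N973.ND.Br

/-!
# The exact criterion over `ℚ` and the rank form, all squarefree `D ≡ 1 mod 4` prime to seven
-/

set_option autoImplicit false
set_option linter.unusedSectionVars false

namespace Pool.Agent.N818.TC

open WeierstrassCurve
open Pool.Agent.Y698 Pool.Agent.Y698.SG
open Pool.Agent.R426.QD (r4 Ev)
open scoped Classical

/-- the curve `y² = x³ + a x + b` -/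
def Es (a b : ℤ) : WeierstrassCurve ℚ :=
  { a₁ := 0, a₂ := 0, a₃ := 0, a₄ := (a : ℚ), a₆ := (b : ℚ) }

/-- finitely many points, no element of order two in the Tate-Shafarevich group -/
def Rz (a b : ℤ) : Prop :=
  Finite (Es a b).toAffine.Point ∧ ∀ x : Pool.Agent.TH841.SH.D.Sha (Es a b), 2 • x = 0 → x = 0

lemma Es_SE {D j : ℤ} (hj : D = 1 + 4 * j) : Es (A D) (B D) = SE (1 + 4 * (j : ℚ)) := by
  unfold Es SE A B
  rw [hj]
  push_cast
  rfl

/-- **the exact criterion** -/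
theorem rz_iff {D : ℤ} (h4 : D % 4 = 1) {S : Finset RR} (hprod : ((D : ℤ) : RR) = ∏ p ∈ S, p)
    (hE : Ev S (fun p => p)) :
    Rz (A D) (B D) ↔ gd (mc fun p : RR => p) (mr fun p : RR => p) S ≠ 0 := by
  obtain ⟨j, hj⟩ : ∃ j : ℤ, D = 1 + 4 * j := ⟨D / 4, by omega⟩
  have hp : ∏ p ∈ S, p = 1 + 4 * (j : RR) := by
    rw [← hprod, hj]
    push_cast
    rfl
  unfold Rz
  rw [Es_SE hj]
  exact crit hE hp

/-- finitely many solutions -/
theorem fin_sol {D : ℤ} (hD : D ≠ 0) (hf : Finite (Es (A D) (B D)).toAffine.Point) :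
    {q : ℚ × ℚ | q.2 ^ 2 = q.1 ^ 3 + (A D : ℚ) * q.1 + (B D : ℚ)}.Finite := by
  have hdisc : (4 * (A D : ℚ) ^ 3 + 27 * (B D : ℚ) ^ 2) ≠ 0 := by
    have h1 := disc D
    have h2 : (4 * A D ^ 3 + 27 * B D ^ 2 : ℤ) ≠ 0 := by
      rw [h1]
      exact mul_ne_zero (by norm_num) (pow_ne_zero 6 hD)
    exact_mod_cast h2
  have key : ∀ q ∈ {q : ℚ × ℚ | q.2 ^ 2 = q.1 ^ 3 + (A D : ℚ) * q.1 + (B D : ℚ)},
      (Es (A D) (B D)).toAffine.Nonsingular q.1 q.2 := by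
    intro q hq
    have hq' : q.2 ^ 2 = q.1 ^ 3 + (A D : ℚ) * q.1 + (B D : ℚ) := hq
    have hE : (Es (A D) (B D)).toAffine.Equation q.1 q.2 := by
      rw [Affine.equation_iff]
      simp only [Es]
      linear_combination hq'
    refine (Affine.equation_iff_nonsingular_of_Δ_ne_zero ?_).1 hE
    intro h0
    apply hdisc
    simp only [WeierstrassCurve.Δ, WeierstrassCurve.b₂, WeierstrassCurve.b₄, WeierstrassCurve.b₆,
      WeierstrassCurve.b₈, Es] at h0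
    linear_combination (-1 / 16) * h0
  rw [← Set.finite_coe_iff]
  refine Finite.of_injective (fun q : {q : ℚ × ℚ | q.2 ^ 2 = q.1 ^ 3 + (A D : ℚ) * q.1 +
    (B D : ℚ)} => (Affine.Point.some q.1.1 q.1.2 (key q.1 q.2) :
      (Es (A D) (B D)).toAffine.Point)) ?_
  intro q q' hqq
  simp only [Affine.Point.some.injEq] at hqq
  exact Subtype.ext (Prod.ext hqq.1 hqq.2)

/-- **the rank form** -/
theorem rz_bsd {D : ℤ} (hsq : Squarefree D) (h4 : D % 4 = 1) (h7 : ¬ (7 : ℤ) ∣ D)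
    (h : Rz (A D) (B D)) : Pool.Agent.Y687.RankBSD (A D) (B D) := by
  obtain ⟨S, hS, hprod, hE⟩ := exists_fam hsq h4 h7
  exact rank_form hsq h4 h7 hS hE ((rz_iff h4 hprod hE).1 h) (fin_sol hsq.ne_zero h.1)

/-- **the criterion in terms of the prime numbers** -/
theorem rz_gd {D : ℕ} (hsq : Squarefree D) (h4 : D % 4 = 1) (h7 : ¬ 7 ∣ D) :
    Rz (A D) (B D) ↔
      Pool.Agent.N973.ND.Gd Pool.Agent.N973.NT.AA Pool.Agent.N973.NT.bb D.primeFactors := by
  have hsq' : Squarefree (D : ℤ) := Int.squarefree_natCast.2 hsq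
  have h4' : (D : ℤ) % 4 = 1 := by omega
  have h7' : ¬ (7 : ℤ) ∣ (D : ℤ) := fun h => h7 (by exact_mod_cast h)
  obtain ⟨S, hS, hprod, hE⟩ := exists_fam hsq' h4' h7'
  have hb := Pool.Agent.N973.NT.bridge hsq h4 h7 (S := S) (by
    intro p
    rw [hS p]
    push_cast
    exact Iff.rfl)
  refine (rz_iff h4' hprod hE).trans (Iff.trans ?_ hb)
  exact Iff.rfl

open Finset in
/-- **the proportion** -/
theorem rz_prop : Filter.Tendsto
    (fun X : ℕ => (((Icc 1 X).filter fun D : ℕ => (Squarefree D ∧ D % 4 = 1 ∧ ¬ 7 ∣ D) ∧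
        Rz (A D) (B D)).card : ℝ) /
      (((Icc 1 X).filter fun D : ℕ => Squarefree D ∧ D % 4 = 1 ∧ ¬ 7 ∣ D).card : ℝ))
    Filter.atTop (nhds (Pool.Agent.Y703.CQ.c2 / 2)) := by
  refine Pool.Agent.N973.ND.prop.congr fun X => ?_
  congr 2
  refine congrArg Finset.card (Finset.ext fun D => ?_)
  rw [Finset.mem_filter, Finset.mem_filter]
  refine and_congr_right fun _ => ?_
  constructor
  · rintro ⟨h1, h2, h3, h4⟩
    exact ⟨⟨h1, h2, h3⟩, (rz_gd h1 h2 h3).2 h4⟩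
  · rintro ⟨⟨h1, h2, h3⟩, h4⟩
    exact ⟨h1, h2, h3, (rz_gd h1 h2 h3).1 h4⟩

end Pool.Agent.N818.TC
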