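import Pool.Agent.R432.Iso
import Pool.Agent.TH841.NF.Tm
import Pool.Agent.TH841.NF.Conc

/-!
# The endomorphisms of degree two of `y² = x³ - 35 D² x - 98 D³`
-/

set_option autoImplicit false
set_option linter.unusedSectionVars false

attribute [-instance] DivisionRing.toRatAlgebra

namespace Pool.Agent.N818.TC

open WeierstrassCurve

open Pool.Agent.TH841.SH.D (Pt act Gal Coch IsCoc IsCob LocTriv cob)
open Pool.Agent.TH841.NF (Sc tm tm_some pt_ext pt_inj)
open Pool.Agent.R432 (NH KDat Tr trH trH_some isoH isoH_zero isoH_some)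

/-- `y² = x³ - 35 D² x - 98 D³` -/
def SE {F : Type} [Field F] (D : F) : WeierstrassCurve F := ⟨0, 0, 0, -35 * D ^ 2, -98 * D ^ 3⟩

/-- the abscissa of the point of order two killed by `Φ` -/
def rt {F : Type} [Field F] (a D : F) : F := D * (a - 4)

/-- coefficient -/
def qa {F : Type} [Field F] (a D : F) : F := 3 * D * (a - 4)

/-- coefficient -/
def qb {F : Type} [Field F] (a D : F) : F := 7 * D ^ 2 * (1 - 3 * a)

/-- the model with this point at the origin -/
def Wt {F : Type} [Field F] (a D : F) : WeierstrassCurve F := ⟨0, qa a D, 0, qb a D, 0⟩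

section

variable {F : Type} [Field F] [CharZero F] {a D : F}

lemma conj_a (ha : a ^ 2 = a - 2) : (1 - a) ^ 2 = (1 - a) - 2 := by linear_combination ha

lemma a_ne0 (ha : a ^ 2 = a - 2) : a ≠ 0 := by
  rintro rfl
  norm_num at ha

lemma three_ne (ha : a ^ 2 = a - 2) : 1 - 3 * a ≠ 0 := by
  intro h
  have h1 : a = 1 / 3 := by linear_combination -(1 / 3 : F) * h
  rw [h1] at ha
  norm_num at ha

lemma s_ne' (ha : a ^ 2 = a - 2) : 1 - 2 * a ≠ 0 := by
  intro h
  have h1 : a = 1 / 2 := by linear_combination -(1 / 2 : F) * h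
  rw [h1] at ha
  norm_num at ha

lemma qb_ne (ha : a ^ 2 = a - 2) (hD : D ≠ 0) : qb a D ≠ 0 :=
  mul_ne_zero (mul_ne_zero (by norm_num) (pow_ne_zero 2 hD)) (three_ne ha)

/-- the isogeny -/
lemma kdat (ha : a ^ 2 = a - 2) (hD : D ≠ 0) :
    KDat (Wt a D) (Wt (1 - a) D) (qa a D) (qb a D) (qa (1 - a) D) (qb (1 - a) D) a where
  hW := rfl
  hW' := rfl
  dat :=
    { hb := qb_ne ha hD
      hb' := qb_ne (conj_a ha) hD
      hu := a_ne0 ha
      e1 := by
        unfold qa
        linear_combination (-3 * D * a - 12 * D) * ha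
      e2 := by
        unfold qa qb
        linear_combination (21 * D ^ 2 * a ^ 3 + 7 * D ^ 2 * a ^ 2 - 35 * D ^ 2 * a - 58 * D ^ 2) * ha }

lemma tr1 (ha : a ^ 2 = a - 2) : Tr (rt a D) (SE D) (Wt a D) where
  h1 := rfl
  h3 := rfl
  h1' := rfl
  h3' := rfl
  h2 := by
    show qa a D = 0 + 3 * rt a D
    unfold qa rt
    ring
  h4 := by
    show qb a D = -35 * D ^ 2 + 2 * rt a D * 0 + 3 * rt a D ^ 2
    unfold qb rt
    linear_combination (-3 * D ^ 2) * ha
  h6 := by
    show (0 : F) = -98 * D ^ 3 + rt a D * (-35 * D ^ 2) + rt a D ^ 2 * 0 + rt a D ^ 3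
    unfold rt
    linear_combination (-D ^ 3 * a + 11 * D ^ 3) * ha

lemma tr2 (ha : a ^ 2 = a - 2) : Tr (-rt a D) (Wt a D) (SE D) where
  h1 := rfl
  h3 := rfl
  h1' := rfl
  h3' := rfl
  h2 := by
    show (0 : F) = qa a D + 3 * (-rt a D)
    unfold qa rt
    ring
  h4 := by
    show -35 * D ^ 2 = qb a D + 2 * (-rt a D) * qa a D + 3 * (-rt a D) ^ 2
    unfold qb qa rt
    linear_combination (3 * D ^ 2) * ha
  h6 := by
    show -98 * D ^ 3 = 0 + (-rt a D) * qb a D + (-rt a D) ^ 2 * qa a D + (-rt a D) ^ 3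
    unfold qb qa rt
    linear_combination (-2 * D ^ 3 * a + 1 * D ^ 3) * ha

/-- the endomorphism of degree two that kills `(D (a - 4), 0)` -/
noncomputable def Phi (ha : a ^ 2 = a - 2) (hD : D ≠ 0) : NH (SE D) (SE D) :=
  (NH.tr (tr1 ha)).comp ((NH.iso (kdat ha hD)).comp (NH.tr (tr2 (conj_a ha))))

variable {L : Type} [Field L] [Algebra F L]

lemma Phi_x (ha : a ^ 2 = a - 2) (hD : D ≠ 0) {x y : L}
    (h : ((SE D).baseChange L).toAffine.Nonsingular x y) (hx : x = algebraMap F L (rt a D)) :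
    (Phi ha hD).f L (Affine.Point.some x y h : ((SE D).baseChange L).toAffine.Point) = 0 := by
  have e1 : (Phi ha hD).f L (Affine.Point.some x y h : ((SE D).baseChange L).toAffine.Point) =
      trH (tr2 (conj_a ha)) L (isoH L (kdat ha hD) (trH (tr1 ha) L
        (Affine.Point.some x y h : ((SE D).baseChange L).toAffine.Point))) := rfl
  rw [e1, trH_some, isoH_zero L (kdat ha hD) _ (by rw [hx, sub_self]), map_zero]

lemma Phi_some (ha : a ^ 2 = a - 2) (hD : D ≠ 0) {x y : L}
    (h : ((SE D).baseChange L).toAffine.Nonsingular x y) (hx : x ≠ algebraMap F L (rt a D)) :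
    ∃ h', (Phi ha hD).f L (Affine.Point.some x y h : ((SE D).baseChange L).toAffine.Point) =
      (Affine.Point.some
        (y ^ 2 / (algebraMap F L a ^ 2 * (x - algebraMap F L (rt a D)) ^ 2) +
          algebraMap F L (rt (1 - a) D))
        (y * (algebraMap F L (qb a D) - (x - algebraMap F L (rt a D)) ^ 2) /
          (algebraMap F L a ^ 3 * (x - algebraMap F L (rt a D)) ^ 2)) h' :
        ((SE D).baseChange L).toAffine.Point) := by
  have e1 : (Phi ha hD).f L (Affine.Point.some x y h : ((SE D).baseChange L).toAffine.Point) =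
      trH (tr2 (conj_a ha)) L (isoH L (kdat ha hD) (trH (tr1 ha) L
        (Affine.Point.some x y h : ((SE D).baseChange L).toAffine.Point))) := rfl
  obtain ⟨h1, e2⟩ := isoH_some L (kdat ha hD) ((Pool.Agent.R432.tr_ns ((tr1 ha).base L) x y).2 h)
    (sub_ne_zero.2 hx)
  rw [e1, trH_some, e2, trH_some]
  have e3 : y ^ 2 / (algebraMap F L a ^ 2 * (x - algebraMap F L (rt a D)) ^ 2) -
      algebraMap F L (-rt (1 - a) D) =
      y ^ 2 / (algebraMap F L a ^ 2 * (x - algebraMap F L (rt a D)) ^ 2) +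
      algebraMap F L (rt (1 - a) D) := by
    rw [map_neg, sub_neg_eq_add]
  have h2 := (Pool.Agent.R432.tr_ns ((tr2 (conj_a ha)).base L) _ _).2 h1
  rw [e3] at h2
  exact ⟨h2, Pool.Agent.R432.pt_congr _ _ _ e3 rfl⟩

lemma ns_rt (ha : a ^ 2 = a - 2) (hD : D ≠ 0) (L : Type) [Field L] [Algebra F L] :
    ((SE D).baseChange L).toAffine.Nonsingular (algebraMap F L (rt a D)) 0 := by
  have h0 : (SE D).toAffine.Nonsingular (rt a D) 0 := by
    rw [Affine.nonsingular_iff', Affine.equation_iff']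
    have e1 : (SE D).a₁ = 0 := rfl
    have e2 : (SE D).a₂ = 0 := rfl
    have e3 : (SE D).a₃ = 0 := rfl
    have e4 : (SE D).a₄ = -35 * D ^ 2 := rfl
    have e6 : (SE D).a₆ = -98 * D ^ 3 := rfl
    rw [e1, e2, e3, e4, e6]
    refine ⟨?_, Or.inl ?_⟩
    · unfold rt
      linear_combination (-D ^ 3 * a + 11 * D ^ 3) * ha
    · intro h
      apply qb_ne ha hD
      have h1 : qb a D = -35 * D ^ 2 + 3 * rt a D ^ 2 := by
        unfold qb rt
        linear_combination (-3 * D ^ 2) * ha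
      rw [h1]
      linear_combination -h
  have h1 := (Affine.baseChange_nonsingular (SE D) (f := Algebra.ofId F L)
    (Algebra.ofId F L).injective (rt a D) 0).mpr h0
  have e0 : (Algebra.ofId F L) 0 = 0 := map_zero _
  rw [e0] at h1
  exact h1

/-- the point of order two -/
noncomputable def T2 (ha : a ^ 2 = a - 2) (hD : D ≠ 0) (L : Type) [Field L] [Algebra F L] :
    Pt (SE D) L :=
  (Affine.Point.some _ _ (ns_rt ha hD L) : ((SE D).baseChange L).toAffine.Point)

lemma Phi_T (ha : a ^ 2 = a - 2) (hD : D ≠ 0) : (Phi ha hD).f L (T2 ha hD L) = 0 :=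
  Phi_x ha hD _ rfl

lemma rt_ne (ha : a ^ 2 = a - 2) (hD : D ≠ 0) : rt (1 - a) D ≠ rt a D := by
  unfold rt
  intro h
  have h1 : D * (1 - 2 * a) = 0 := by linear_combination h
  exact (mul_ne_zero hD (s_ne' ha)) h1

lemma Phi_T' (ha : a ^ 2 = a - 2) (hD : D ≠ 0) :
    (Phi ha hD).f L (T2 (conj_a ha) hD L) = T2 (conj_a ha) hD L := by
  have hx : algebraMap F L (rt (1 - a) D) ≠ algebraMap F L (rt a D) := fun h =>
    rt_ne ha hD ((algebraMap F L).injective h)
  obtain ⟨h', e⟩ := Phi_some ha hD (ns_rt (conj_a ha) hD L) hx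
  refine (show (Phi ha hD).f L (T2 (conj_a ha) hD L) = _ from e).trans ?_
  refine Pool.Agent.R432.pt_congr _ _ _ ?_ ?_
  · rw [zero_pow two_ne_zero, zero_div, zero_add]
  · rw [zero_mul, zero_div]

end

end Pool.Agent.N818.TC
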