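import Pool.Agent.N818.TC.Cm

/-!
# If there are finitely many points over `ℚ`, then there are finitely many over `ℚ(√-7)`
-/

set_option autoImplicit false
set_option linter.unusedSectionVars false

attribute [-instance] DivisionRing.toRatAlgebra

namespace Pool.Agent.N818.TC

open WeierstrassCurve

open Pool.Agent.TH841.SH.D (Pt act Gal Coch IsCoc IsCob LocTriv cob)
open Pool.Agent.TH841.NF (Sc tm tm_some pt_ext pt_inj tF ns_iff tF_some)
open Pool.Agent.R432 (NH pt_congr)

section set

variable {K : Type} [Field K]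

lemma fin_sq (c : K) : {y : K | y ^ 2 = c}.Finite := by
  by_cases h : ∃ s : K, s ^ 2 = c
  · obtain ⟨s, hs⟩ := h
    refine (Set.toFinite ({s, -s} : Set K)).subset fun y hy => ?_
    have h1 : y ^ 2 = s ^ 2 := by rw [hs]; exact hy
    rcases sq_eq_sq_iff_eq_or_eq_neg.1 h1 with h2 | h2
    · exact Or.inl h2
    · exact Or.inr h2
  · refine Set.finite_empty.subset fun y hy => h ⟨y, hy⟩

/-- finitely many points with the abscissas in a finite set -/
lemma fin_of_x (D : K) {S : Set K} (hS : S.Finite) {Z : Set (Pt (SE D) K)}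
    (hZ : ∀ P ∈ Z, P = 0 ∨ ∃ (x y : K) (h : ((SE D).baseChange K).toAffine.Nonsingular x y),
      P = (Affine.Point.some x y h : ((SE D).baseChange K).toAffine.Point) ∧ x ∈ S) : Z.Finite := by
  classical
  set φ : Pt (SE D) K → Option (K × K) := fun P =>
    match (P : ((SE D).baseChange K).toAffine.Point) with
    | .zero => none
    | .some x y _ => some (x, y) with hφ
  have hinj : Function.Injective φ := by
    rintro (_ | ⟨x, y, h⟩) (_ | ⟨x', y', h'⟩) he
    · rfl
    · simp [hφ] at he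
    · simp [hφ] at he
    · simp only [hφ, Option.some.injEq, Prod.mk.injEq] at he
      exact pt_congr _ _ _ he.1 he.2
  set T : Set (K × K) := S ×ˢ (⋃ x ∈ S, {y : K | y ^ 2 = x ^ 3 + (-35 * D ^ 2) * x + (-98 * D ^ 3)})
    with hT
  have hTf : T.Finite := hS.prod (hS.biUnion fun x _ => fin_sq _)
  have h1 : (insert (none : Option (K × K)) (some '' T)).Finite := (hTf.image _).insert _
  refine (h1.preimage hinj.injOn).subset fun P hP => ?_
  rcases hZ P hP with h2 | ⟨x, y, h, h2, h3⟩
  · left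
    rw [h2]
  · right
    refine ⟨(x, y), ⟨h3, ?_⟩, ?_⟩
    · rw [Set.mem_iUnion₂]
      refine ⟨x, h3, ?_⟩
      have h4 := h.1
      rw [Affine.equation_iff] at h4
      have e1 : ((SE D).baseChange K).a₁ = 0 := map_zero _
      have e2 : ((SE D).baseChange K).a₂ = 0 := map_zero _
      have e3 : ((SE D).baseChange K).a₃ = 0 := map_zero _
      have e4 : ((SE D).baseChange K).a₄ = -35 * D ^ 2 := rfl
      have e6 : ((SE D).baseChange K).a₆ = -98 * D ^ 3 := rfl
      show y ^ 2 = _
      rw [e1, e2, e3, e4, e6] at h4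
      linear_combination h4
    · rw [h2]

end set

section kernel

variable {K : Type} [Field K] [CharZero K] {a D : K}

/-- the equation of the points -/
lemma eqn {x y : K} (h : ((SE D).baseChange K).toAffine.Nonsingular x y) :
    y ^ 2 = x ^ 3 - 35 * D ^ 2 * x - 98 * D ^ 3 := by
  have h4 := h.1
  rw [Affine.equation_iff] at h4
  have e1 : ((SE D).baseChange K).a₁ = 0 := map_zero _
  have e2 : ((SE D).baseChange K).a₂ = 0 := map_zero _
  have e3 : ((SE D).baseChange K).a₃ = 0 := map_zero _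
  have e4 : ((SE D).baseChange K).a₄ = -35 * D ^ 2 := rfl
  have e6 : ((SE D).baseChange K).a₆ = -98 * D ^ 3 := rfl
  rw [e1, e2, e3, e4, e6] at h4
  linear_combination h4

open Polynomial in
/-- the two endomorphisms coincide on a finite set only -/
theorem ker_fin (ha : a ^ 2 = a - 2) (hD : D ≠ 0) :
    {P : Pt (SE D) K | (Phi ha hD).f K P = (Phi (conj_a ha) hD).f K P}.Finite := by
  set p : K[X] := ((X - C (rt (1 - a) D)) * (X - C (7 * D)) + C (rt (1 - a) D * a ^ 2) *
      (X - C (rt a D))) * (C ((1 - a) ^ 2) * (X - C (rt (1 - a) D))) -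
    ((X - C (rt a D)) * (X - C (7 * D)) + C (rt a D * (1 - a) ^ 2) *
      (X - C (rt (1 - a) D))) * (C (a ^ 2) * (X - C (rt a D))) with hp
  have hne := rt_ne ha hD
  have h7 : rt a D ≠ 7 * D := by
    unfold rt
    intro h
    have h1 : D * (a - 11) = 0 := by linear_combination h
    rcases mul_eq_zero.1 h1 with h2 | h2
    · exact hD h2
    · have h3 : a = 11 := by linear_combination h2
      rw [h3] at ha
      norm_num at ha
  have hp0 : p ≠ 0 := by
    intro h0
    have h1 : p.eval (rt a D) = 0 := by rw [h0, eval_zero]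
    rw [hp] at h1
    simp only [eval_sub, eval_mul, eval_add, eval_X, eval_C, sub_self, mul_zero, add_zero,
      sub_zero] at h1
    rcases mul_eq_zero.1 h1 with h2 | h2
    · rcases mul_eq_zero.1 h2 with h3 | h3
      · exact hne (sub_eq_zero.1 h3).symm
      · exact h7 (sub_eq_zero.1 h3)
    · rcases mul_eq_zero.1 h2 with h3 | h3
      · exact a_ne0 (conj_a ha) (pow_eq_zero_iff two_ne_zero |>.1 h3)
      · exact hne (sub_eq_zero.1 h3).symm
  have hfin : {x : K | p.IsRoot x}.Finite := Polynomial.finite_setOfPred_isRoot hp0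
  refine fin_of_x D ((hfin.insert (rt a D)).insert (rt (1 - a) D)) fun P hP => ?_
  rcases P with _ | ⟨x, y, h⟩
  · exact Or.inl rfl
  · right
    refine ⟨x, y, h, rfl, ?_⟩
    by_cases hx1 : x = rt (1 - a) D
    · exact Or.inl hx1
    by_cases hx2 : x = rt a D
    · exact Or.inr (Or.inl hx2)
    refine Or.inr (Or.inr ?_)
    obtain ⟨k1, e1⟩ := Phi_some ha hD h (show x ≠ algebraMap K K (rt a D) from hx2)
    obtain ⟨k2, e2⟩ := Phi_some (conj_a ha) hD h (show x ≠ algebraMap K K (rt (1 - a) D) from hx1)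
    have hP' : (Phi ha hD).f K (Affine.Point.some x y h :
        ((SE D).baseChange K).toAffine.Point) = (Phi (conj_a ha) hD).f K
          (Affine.Point.some x y h : ((SE D).baseChange K).toAffine.Point) := hP
    rw [e1, e2] at hP'
    have h3 := (pt_inj _ _ hP').1
    have a0 := a_ne0 ha
    have b0 := a_ne0 (conj_a ha)
    have x1 : x - rt (1 - a) D ≠ 0 := sub_ne_zero.2 hx1
    have x2 : x - rt a D ≠ 0 := sub_ne_zero.2 hx2
    have h4 : y ^ 2 / (a ^ 2 * (x - rt a D) ^ 2) + rt (1 - a) D =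
        y ^ 2 / ((1 - a) ^ 2 * (x - rt (1 - a) D) ^ 2) + rt (1 - (1 - a)) D := h3
    have h5 := eqn h
    have h6 : y ^ 2 = (x - rt a D) * (x - rt (1 - a) D) * (x - 7 * D) := by
      rw [h5]
      unfold rt
      linear_combination (D ^ 2 * x - 7 * D ^ 3) * ha
    rw [sub_sub_cancel, h6] at h4
    have h7 : (x - rt a D) * (x - rt (1 - a) D) * (x - 7 * D) / (a ^ 2 * (x - rt a D) ^ 2) =
        (x - rt (1 - a) D) * (x - 7 * D) / (a ^ 2 * (x - rt a D)) := by
      field_simp
    have h8 : (x - rt a D) * (x - rt (1 - a) D) * (x - 7 * D) /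
        ((1 - a) ^ 2 * (x - rt (1 - a) D) ^ 2) =
        (x - rt a D) * (x - 7 * D) / ((1 - a) ^ 2 * (x - rt (1 - a) D)) := by
      field_simp
    rw [h7, h8] at h4
    show p.eval x = 0
    rw [hp]
    simp only [eval_sub, eval_mul, eval_add, eval_X, eval_C]
    have h9 : ((x - rt (1 - a) D) * (x - 7 * D) / (a ^ 2 * (x - rt a D)) + rt (1 - a) D) *
        (a ^ 2 * (x - rt a D)) = (x - rt (1 - a) D) * (x - 7 * D) +
          rt (1 - a) D * a ^ 2 * (x - rt a D) := by
      field_simp
    have h10 : ((x - rt a D) * (x - 7 * D) / ((1 - a) ^ 2 * (x - rt (1 - a) D)) + rt a D) *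
        ((1 - a) ^ 2 * (x - rt (1 - a) D)) = (x - rt a D) * (x - 7 * D) +
          rt a D * (1 - a) ^ 2 * (x - rt (1 - a) D) := by
      field_simp
    rw [← h9, ← h10, h4]
    ring

end kernel

section conj

variable {K : Type} [Field K] [CharZero K] {a D : K} (c : K →+* K) (hcD : c D = D)

include hcD in
lemma sc_c : Sc c 1 ((SE D).baseChange K) ((SE D).baseChange K) where
  hu := one_ne_zero
  h1 := by
    show (0 : K) = c 0 * 1
    rw [map_zero, zero_mul]
  h2 := by
    show (0 : K) = c 0 * 1 ^ 2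
    rw [map_zero, zero_mul]
  h3 := by
    show (0 : K) = c 0 * 1 ^ 3
    rw [map_zero, zero_mul]
  h4 := by
    show -35 * D ^ 2 = c (-35 * D ^ 2) * 1 ^ 4
    rw [map_mul, map_neg, map_pow, hcD, map_ofNat, one_pow, mul_one]
  h6 := by
    show -98 * D ^ 3 = c (-98 * D ^ 3) * 1 ^ 6
    rw [map_mul, map_neg, map_pow, hcD, map_ofNat, one_pow, mul_one]

/-- the conjugation of the points -/
noncomputable def cst : Pt (SE D) K →+ Pt (SE D) K := tm (sc_c c hcD)

lemma cst_some {x y : K} (h : ((SE D).baseChange K).toAffine.Nonsingular x y) :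
    ∃ h', cst c hcD (Affine.Point.some x y h : ((SE D).baseChange K).toAffine.Point) =
      (Affine.Point.some (c x) (c y) h' : ((SE D).baseChange K).toAffine.Point) := by
  have e1 : c x * 1 ^ 2 = c x := by rw [one_pow, mul_one]
  have e2 : c y * 1 ^ 3 = c y := by rw [one_pow, mul_one]
  have h1 := (ns_iff (sc_c c hcD) x y).2 h
  rw [e1, e2] at h1
  exact ⟨h1, (tm_some (sc_c c hcD) x y h).trans (pt_congr _ _ _ e1 e2)⟩

lemma cst_cst (hc : ∀ x, c (c x) = x) (P : Pt (SE D) K) : cst c hcD (cst c hcD P) = P := by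
  rcases P with _ | ⟨x, y, h⟩
  · rfl
  · obtain ⟨h1, e1⟩ := cst_some c hcD h
    obtain ⟨h2, e2⟩ := cst_some c hcD h1
    refine ((congrArg (cst c hcD) e1).trans e2).trans ?_
    exact pt_congr _ _ _ (hc x) (hc y)

lemma cst_Phi (ha : a ^ 2 = a - 2) (hD : D ≠ 0) (hca : c a = 1 - a) (P : Pt (SE D) K) :
    cst c hcD ((Phi ha hD).f K P) = (Phi (conj_a ha) hD).f K (cst c hcD P) := by
  have r1 : c (rt a D) = rt (1 - a) D := by
    unfold rt
    rw [map_mul, map_sub, hcD, hca, map_ofNat]
  have r2 : c (rt (1 - a) D) = rt (1 - (1 - a)) D := by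
    unfold rt
    rw [map_mul, map_sub, map_sub, hcD, hca, map_ofNat, map_one]
  have r3 : c (qb a D) = qb (1 - a) D := by
    unfold qb
    simp only [map_mul, map_sub, map_pow, hcD, hca, map_ofNat, map_one]
  rcases P with _ | ⟨x, y, h⟩
  · have z1 : (Phi ha hD).f K (Affine.Point.zero : ((SE D).baseChange K).toAffine.Point) = 0 :=
      map_zero _
    have z2 : cst c hcD (Affine.Point.zero : ((SE D).baseChange K).toAffine.Point) = 0 :=
      map_zero _
    refine (congrArg (cst c hcD) z1).trans ?_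
    refine Eq.trans ?_ (congrArg ((Phi (conj_a ha) hD).f K) z2).symm
    rw [map_zero, map_zero]
  · obtain ⟨h1, e1⟩ := cst_some c hcD h
    refine Eq.trans ?_ (congrArg ((Phi (conj_a ha) hD).f K) e1).symm
    by_cases hx : x = rt a D
    · have z1 := Phi_x ha hD h (show x = algebraMap K K (rt a D) from hx)
      refine (congrArg (cst c hcD) z1).trans ?_
      rw [map_zero]
      refine (Phi_x (conj_a ha) hD h1 ?_).symm
      show c x = rt (1 - a) D
      rw [hx, r1]
    · obtain ⟨h2, e2⟩ := Phi_some ha hD h (show x ≠ algebraMap K K (rt a D) from hx)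
      have hx' : c x ≠ algebraMap K K (rt (1 - a) D) := by
        intro h3
        have h4 : c x = c (rt a D) := by rw [r1]; exact h3
        exact hx (c.injective h4)
      obtain ⟨h3, e3⟩ := Phi_some (conj_a ha) hD h1 hx'
      obtain ⟨h4, e4⟩ := cst_some c hcD h2
      refine (congrArg (cst c hcD) e2).trans ?_
      refine e4.trans ?_
      refine Eq.trans ?_ e3.symm
      have i1 : ∀ z : K, algebraMap K K z = z := fun _ => rfl
      refine pt_congr _ _ _ ?_ ?_
      · simp only [i1, map_add, map_div₀, map_mul, map_pow, map_sub, hca, r1, r2]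
      · simp only [i1, map_div₀, map_mul, map_pow, map_sub, hca, r1, r3]

/-- **finitely many points over `ℚ(√-7)`** -/
theorem fin_K [Algebra ℚ K] (ha : a ^ 2 = a - 2) (hD : D ≠ 0) (hc : ∀ x, c (c x) = x)
    (hca : c a = 1 - a) (hfix : ∀ x : K, c x = x → ∃ q : ℚ, algebraMap ℚ K q = x) {D₀ : ℚ}
    (hD₀ : algebraMap ℚ K D₀ = D) (hcD : c D = D) (hfin : Finite (SE D₀).toAffine.Point) :
    Finite (SE D).toAffine.Point := by
  classical
  have S : Sc (algebraMap ℚ K) 1 (SE D₀) ((SE D).baseChange K) := by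
    refine ⟨one_ne_zero, ?_, ?_, ?_, ?_, ?_⟩
    · show (0 : K) = algebraMap ℚ K 0 * 1
      rw [map_zero, zero_mul]
    · show (0 : K) = algebraMap ℚ K 0 * 1 ^ 2
      rw [map_zero, zero_mul]
    · show (0 : K) = algebraMap ℚ K 0 * 1 ^ 3
      rw [map_zero, zero_mul]
    · show -35 * D ^ 2 = algebraMap ℚ K (-35 * D₀ ^ 2) * 1 ^ 4
      rw [map_mul, map_neg, map_pow, hD₀, map_ofNat, one_pow, mul_one]
    · show -98 * D ^ 3 = algebraMap ℚ K (-98 * D₀ ^ 3) * 1 ^ 6
      rw [map_mul, map_neg, map_pow, hD₀, map_ofNat, one_pow, mul_one]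
  set FF : Set (Pt (SE D) K) := {P | cst c hcD P = P} with hFF
  have hF : FF.Finite := by
    have h0 : (Set.range (tF S : (SE D₀).toAffine.Point → ((SE D).baseChange K).toAffine.Point)).Finite :=
      Set.finite_range _
    refine h0.subset fun P hP => ?_
    rcases P with _ | ⟨x, y, h⟩
    · exact ⟨0, rfl⟩
    · obtain ⟨h1, e1⟩ := cst_some c hcD h
      have hP' : cst c hcD (Affine.Point.some x y h : ((SE D).baseChange K).toAffine.Point) =
        (Affine.Point.some x y h : ((SE D).baseChange K).toAffine.Point) := hP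
      rw [e1] at hP'
      obtain ⟨h2, h3⟩ := pt_inj _ _ hP'
      obtain ⟨q, hq⟩ := hfix x h2
      obtain ⟨s, hs⟩ := hfix y h3
      have hq' : algebraMap ℚ K q * 1 ^ 2 = x := by rw [one_pow, mul_one, hq]
      have hs' : algebraMap ℚ K s * 1 ^ 3 = y := by rw [one_pow, mul_one, hs]
      have h4 : (SE D₀).toAffine.Nonsingular q s := by
        rw [← ns_iff S q s, hq', hs']
        exact h
      exact ⟨.some q s h4, pt_congr _ _ _ hq' hs'⟩
  set A : Pt (SE D) K → Pt (SE D) K := fun Q => Q + cst c hcD Q with hA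
  have hAF : ∀ Q, A Q ∈ FF := by
    intro Q
    show cst c hcD (Q + cst c hcD Q) = Q + cst c hcD Q
    rw [map_add, cst_cst c hcD hc, add_comm]
  set B : Pt (SE D) K → Pt (SE D) K := fun P => (Phi ha hD).f K P - (Phi (conj_a ha) hD).f K P
    with hB
  have hBr : (B '' Set.univ).Finite := by
    refine (Set.Finite.image2 (fun u v => u - (Phi (conj_a ha) hD).f K v) hF hF).subset ?_
    rintro _ ⟨P, -, rfl⟩
    refine ⟨A ((Phi ha hD).f K P), hAF _, A P, hAF _, ?_⟩
    simp only [hA, hB]
    rw [cst_Phi c hcD ha hD hca, map_add]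
    abel
  have huniv : (Set.univ : Set (Pt (SE D) K)).Finite := by
    refine Set.Finite.of_finite_fibers B hBr ?_
    rintro _ ⟨P, -, rfl⟩
    have hk := ker_fin ha hD
    refine (hk.image fun Q => P + Q).subset ?_
    rintro Q ⟨-, hQ⟩
    refine ⟨Q - P, ?_, add_sub_cancel P Q⟩
    have hQ' : (Phi ha hD).f K Q - (Phi (conj_a ha) hD).f K Q =
      (Phi ha hD).f K P - (Phi (conj_a ha) hD).f K P := hQ
    show (Phi ha hD).f K (Q - P) = (Phi (conj_a ha) hD).f K (Q - P)
    rw [map_sub, map_sub, sub_eq_sub_iff_add_eq_add]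
    rw [sub_eq_sub_iff_add_eq_add] at hQ'
    rw [hQ', add_comm]
  have : Finite (Pt (SE D) K) := Set.finite_univ_iff.1 huniv
  exact this

end conj

end Pool.Agent.N818.TC
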