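import Pool.Agent.N818.TC.Cob
import Pool.Agent.N818.TC.Fin
import Pool.Agent.R426.QC.Lc
import Pool.Agent.R426.QC.Cvw
import Pool.Agent.R426.QC.Ve
import Pool.Agent.R426.QC.Shr

/-!
# The comparison of the models
-/

set_option autoImplicit false
set_option linter.unusedSectionVars false

attribute [-instance] DivisionRing.toRatAlgebra

namespace Pool.Agent.N818.TC

open WeierstrassCurve NumberField IsDedekindDomain

open Pool.Agent.TH841.SH.D (Pt act Gal Coch IsCoc IsCob LocTriv cob)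
open Pool.Agent.R432 (NH pt_congr trH trH_some trH_inv Tr iC iC_sha iC_coc trF trF_some)
open Pool.Agent.R426.QC (cA cB E2 vchK vFe_inj vFe)
open Pool.Agent.Y698 (eA eB EX)
open Pool.Agent.R426.QC

section

variable {K : Type} [Field K] {a D : K}

lemma eA_a (ha : a ^ 2 = a - 2) : eA a = a - 11 := by
  unfold eA
  linear_combination (2 * a ^ 3 - 7 * a ^ 2 + 5 * a + 5) * ha

lemma eB_a (ha : a ^ 2 = a - 2) : eB a = -a - 10 := by
  unfold eB
  linear_combination (-2 * a ^ 3 - a ^ 2 + 3 * a + 5) * ha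

lemma cA_a (ha : a ^ 2 = a - 2) : cA a D = qa (1 - a) D := by
  unfold cA qa
  rw [eA_a ha, eB_a ha]
  ring

lemma cB_a (ha : a ^ 2 = a - 2) : cB a D = qb (1 - a) D := by
  unfold cB qb
  rw [eA_a ha, eB_a ha]
  linear_combination (2 * D ^ 2) * ha

lemma WF_a (ha : a ^ 2 = a - 2) : Cv.WF (cA a D) (cB a D) = Wt (1 - a) D := by
  rw [cA_a ha, cB_a ha]
  rfl

end

section

variable {K : Type} [Field K] [CharZero K] {a D : K}

lemma trA (ha : a ^ 2 = a - 2) : Tr (-rt (1 - a) D) (Cv.WF (cA a D) (cB a D)) (SE D) := by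
  rw [WF_a ha]
  exact tr2 (conj_a ha)

lemma trB (ha : a ^ 2 = a - 2) : Tr (-(-rt (1 - a) D)) (SE D) (Cv.WF (cA a D) (cB a D)) := by
  rw [WF_a ha, neg_neg]
  exact tr1 (conj_a ha)

/-- the coboundaries -/
lemma iC_cob {W W' : WeierstrassCurve K} (h : NH W W') {f : Coch W} (hf : IsCob W f) :
    IsCob W' (iC h f) := by
  obtain ⟨P, hP⟩ := hf
  refine ⟨h.f (AlgebraicClosure K) P, fun σ => ?_⟩
  change h.f (AlgebraicClosure K) (f σ) = _
  rw [hP, map_sub, h.nat]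

end

section

variable {K : Type} [Field K] [NumberField K] [Algebra ℚ K] {a D : K} {D₀ : ℚ}

/-- **the cocycles of the 2-descent** -/
theorem cob_coc (ha : a ^ 2 = a - 2) (hD : D ≠ 0) (hD₀ : algebraMap ℚ K D₀ = D)
    (hgen : IntermediateField.adjoin ℚ (Set.range (rr a)) = ⊤) (hb0 : cB a D ≠ 0) {d : K}
    (hf : Pool.Agent.TH841.NF.D.IsShaCoc (Cv.WF (cA a D) (cB a D)) (Cv.coc K hb0 d))
    (hsha : ∀ x : Pool.Agent.TH841.SH.D.Sha (SE D₀), 2 • x = 0 → x = 0) :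
    IsCob (Cv.WF (cA a D) (cB a D)) (Cv.coc K hb0 d) := by
  have h1 := iC_sha (NH.tr (trA (D := D) ha)) hf
  have h2 : iC (NH.tr (trA (D := D) ha)) (Cv.coc K hb0 d) +
      iC (NH.tr (trA (D := D) ha)) (Cv.coc K hb0 d) = 0 := by
    rw [← Pool.Agent.R432.iC_add, Cv.coc_two]
    funext σ
    exact map_zero ((NH.tr (trA (D := D) ha)).f (AlgebraicClosure K))
  have h3 : ∀ σ, iC (NH.tr (trA (D := D) ha)) (Cv.coc K hb0 d) σ = 0 ∨
      iC (NH.tr (trA (D := D) ha)) (Cv.coc K hb0 d) σ =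
        T2 (conj_a ha) hD (AlgebraicClosure K) := by
    intro σ
    have e1 : iC (NH.tr (trA (D := D) ha)) (Cv.coc K hb0 d) σ =
      trH (trA (D := D) ha) (AlgebraicClosure K) (Cv.coc K hb0 d σ) := rfl
    rw [e1]
    obtain ⟨s, hs⟩ := Cv.exists_root (F := K) d
    by_cases h4 : σ s = s
    · left
      rw [(Cv.coc_eq hb0 hs σ).1 h4, map_zero]
    · right
      rw [(Cv.coc_eq hb0 hs σ).2 h4]
      refine (trH_some (trA (D := D) ha) (AlgebraicClosure K)
        (Cv.ns0 K hb0 (AlgebraicClosure K))).trans ?_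
      refine pt_congr _ _ _ ?_ rfl
      rw [map_neg, zero_sub, neg_neg]
  have h4 := cob_K ha hD hD₀ hgen h1 h3 h2 hsha
  have h5 := iC_cob (NH.tr (trB (D := D) ha)) h4
  have h6 : iC (NH.tr (trB (D := D) ha)) (iC (NH.tr (trA (D := D) ha)) (Cv.coc K hb0 d)) =
      Cv.coc K hb0 d := by
    funext σ
    exact trH_inv (trA (D := D) ha) (trB (D := D) ha) (AlgebraicClosure K) (Cv.coc K hb0 d σ)
  rw [h6] at h5
  exact h5

lemma tr3 (j : K) : Tr (-(7 * (1 + 4 * j))) (E2 K j 0) (SE (1 + 4 * j)) where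
  h1 := rfl
  h3 := rfl
  h1' := rfl
  h3' := rfl
  h2 := by
    show (0 : K) = 21 * (1 + 4 * j) - 3 * 0 + 3 * -(7 * (1 + 4 * j))
    ring
  h4 := by
    show -35 * (1 + 4 * j) ^ 2 = 112 * (1 + 4 * j) ^ 2 - 42 * (1 + 4 * j) * 0 + 3 * 0 ^ 2 +
      2 * -(7 * (1 + 4 * j)) * (21 * (1 + 4 * j) - 3 * 0) + 3 * (-(7 * (1 + 4 * j))) ^ 2
    ring
  h6 := by
    show -98 * (1 + 4 * j) ^ 3 = -0 ^ 3 + 21 * (1 + 4 * j) * 0 ^ 2 - 112 * (1 + 4 * j) ^ 2 * 0 +
      -(7 * (1 + 4 * j)) * (112 * (1 + 4 * j) ^ 2 - 42 * (1 + 4 * j) * 0 + 3 * 0 ^ 2) +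
      (-(7 * (1 + 4 * j))) ^ 2 * (21 * (1 + 4 * j) - 3 * 0) + (-(7 * (1 + 4 * j))) ^ 3
    ring

lemma trF_inj {W W' : WeierstrassCurve K} {r : K} (S : Tr r W W') :
    Function.Injective (trF S) := by
  rintro (_ | ⟨x, y, h⟩) (_ | ⟨x', y', h'⟩) he
  · rfl
  · exact absurd he (by rintro ⟨⟩)
  · exact absurd he (by rintro ⟨⟩)
  · have he' : (Affine.Point.some (x - r) y ((Pool.Agent.R432.tr_ns S x y).2 h) :
        W'.toAffine.Point) = Affine.Point.some (x' - r) y'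
          ((Pool.Agent.R432.tr_ns S x' y').2 h') := he
    rw [Affine.Point.some.injEq] at he'
    obtain ⟨h1, h2⟩ := he'
    have h3 : x = x' := sub_left_injective h1
    subst h3 h2
    rfl

/-- the minimal model -/
lemma fin_EX (j : K) (h : Finite (SE (1 + 4 * j)).toAffine.Point) :
    Finite (EX K j).toAffine.Point :=
  Finite.of_injective _ ((trF_inj (tr3 j)).comp (vFe_inj (vchK j 0)))

end

end Pool.Agent.N818.TC
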