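import Pool.Agent.N818.TC.Desc
import Pool.Agent.N818.TC.Cm

/-!
# The cocycles with values in the kernel of an endomorphism of degree two
-/

set_option autoImplicit false
set_option linter.unusedSectionVars false

attribute [-instance] DivisionRing.toRatAlgebra

namespace Pool.Agent.N818.TC

open WeierstrassCurve NumberField IsDedekindDomain

open Pool.Agent.TH841.NF
open Pool.Agent.TH841.SH.D (Pt act Gal Coch IsCoc IsCob LocTriv cob)
open Pool.Agent.R432 (NH pt_congr trH trH_some trH_inv Tr iC iC_sha)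

/-- a class of order two in the kernel of the localizations -/
theorem cobQ_of_sha {W : WeierstrassCurve ℚ}
    (hsha : ∀ x : Pool.Agent.TH841.SH.D.Sha W, 2 • x = 0 → x = 0) {f : Coch W}
    (hf : Pool.Agent.TH841.SH.D.IsShaCoc W f) (h2 : f + f = 0) : IsCob W f := by
  obtain ⟨x, hx⟩ : ∃ x : Pool.Agent.TH841.SH.D.Sha W,
      x = QuotientAddGroup.mk (⟨f, hf⟩ : Pool.Agent.TH841.SH.D.shaCoc W) := ⟨_, rfl⟩
  have hx2 : 2 • x = 0 := by
    rw [two_nsmul, hx]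
    refine (QuotientAddGroup.eq_zero_iff _).2 ?_
    have h3 : ((⟨f, hf⟩ : Pool.Agent.TH841.SH.D.shaCoc W) + ⟨f, hf⟩) = 0 := Subtype.ext h2
    have h4 := AddSubgroup.zero_mem
      ((cob W).addSubgroupOf (Pool.Agent.TH841.SH.D.shaCoc W))
    rw [← h3] at h4
    exact h4
  have h5 := hsha x hx2
  rw [hx] at h5
  exact (QuotientAddGroup.eq_zero_iff (⟨f, hf⟩ : Pool.Agent.TH841.SH.D.shaCoc W)).1 h5

section

variable {K : Type} [Field K] [NumberField K] [Algebra ℚ K] {a D : K} {D₀ : ℚ}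

lemma scK (hD₀ : algebraMap ℚ K D₀ = D) : Sc (algebraMap ℚ K) 1 (SE D₀) (SE D) := by
  refine ⟨one_ne_zero, ?_, ?_, ?_, ?_, ?_⟩
  · show (0 : K) = algebraMap ℚ K 0 * 1
    rw [map_zero, zero_mul]
  · show (0 : K) = algebraMap ℚ K 0 * 1 ^ 2
    rw [map_zero, zero_mul]
  · show (0 : K) = algebraMap ℚ K 0 * 1 ^ 3
    rw [map_zero, zero_mul]
  · show -35 * D ^ 2 = algebraMap ℚ K (-35 * D₀ ^ 2) * 1 ^ 4
    rw [map_mul, map_neg, map_pow, hD₀, map_ofNat, one_pow, mul_one]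
  · show -98 * D ^ 3 = algebraMap ℚ K (-98 * D₀ ^ 3) * 1 ^ 6
    rw [map_mul, map_neg, map_pow, hD₀, map_ofNat, one_pow, mul_one]

lemma tw_SE (D₀ : ℚ) : tw (∏ i ∈ (∅ : Finset (Fin 1)), (fun _ : Fin 1 => (-7 : ℚ)) i) (SE D₀) =
    SE D₀ := by
  rw [Finset.prod_empty]
  unfold tw SE
  ext
  · rfl
  · show (1 : ℚ) * 0 = 0
    ring
  · rfl
  · show (1 : ℚ) ^ 2 * (-35 * D₀ ^ 2) = -35 * D₀ ^ 2
    ring
  · show (1 : ℚ) ^ 3 * (-98 * D₀ ^ 3) = -98 * D₀ ^ 3
    ring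

/-- the value of the square root of `-7` -/
def rr (a : K) : Fin 1 → K := fun _ => 2 * a - 1

lemma hrr (ha : a ^ 2 = a - 2) (i : Fin 1) : rr a i ^ 2 = algebraMap ℚ K ((fun _ => (-7 : ℚ)) i) := by
  show (2 * a - 1) ^ 2 = algebraMap ℚ K (-7)
  rw [map_neg, map_ofNat]
  linear_combination 4 * ha

lemma seven_ne (i : Fin 1) : (fun _ : Fin 1 => (-7 : ℚ)) i ≠ 0 := by
  show (-7 : ℚ) ≠ 0
  norm_num

/-- the points of order two are conjugate -/
lemma conj_T (ha : a ^ 2 = a - 2) (hD : D ≠ 0) (hD₀ : algebraMap ℚ K D₀ = D)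
    (e : AlgebraicClosure K ≃+* Qb) (g : Gal ℚ)
    (hg : g ∉ HH e (hrr ha) seven_ne) :
    aG (SE D₀) g (tm (sc_any (scK hD₀) (e : AlgebraicClosure K →+* Qb))
      (T2 (conj_a ha) hD (AlgebraicClosure K))) =
      tm (sc_any (scK hD₀) (e : AlgebraicClosure K →+* Qb)) (T2 ha hD (AlgebraicClosure K)) := by
  rw [mem_Hs] at hg
  have hg' : g (rh e (rr a) 0) ≠ rh e (rr a) 0 := by
    intro h
    apply hg
    intro i
    rw [Fin.fin_one_eq_zero i]
    exact h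
  have h1 := (pm (rh_sq e (hrr ha) 0) g).resolve_left hg'
  have h2 : g (e (algebraMap K (AlgebraicClosure K) (2 * a - 1))) =
      -e (algebraMap K (AlgebraicClosure K) (2 * a - 1)) := h1
  have h3 : g (e (algebraMap K (AlgebraicClosure K) D)) = e (algebraMap K (AlgebraicClosure K) D) := by
    rw [← hD₀]
    have h4 : e (algebraMap K (AlgebraicClosure K) (algebraMap ℚ K D₀)) = algebraMap ℚ Qb D₀ :=
      rat_hom (((e : AlgebraicClosure K →+* Qb).comp
        (algebraMap K (AlgebraicClosure K))).comp (algebraMap ℚ K)) D₀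
    rw [h4]
    exact AlgEquiv.commutes g D₀
  have h5 : g (e (algebraMap K (AlgebraicClosure K) a)) =
      e (algebraMap K (AlgebraicClosure K) (1 - a)) := by
    simp only [map_sub, map_mul, map_one, map_ofNat] at h2 ⊢
    linear_combination (1 / 2 : Qb) * h2
  refine Pool.Agent.R432.pt_congr _ _ _ ?_ ?_
  · show g (e (algebraMap K (AlgebraicClosure K) (rt (1 - a) D)) * 1 ^ 2) =
      e (algebraMap K (AlgebraicClosure K) (rt a D)) * 1 ^ 2
    unfold rt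
    simp only [map_sub, map_mul, map_one, map_ofNat, one_pow, mul_one] at h3 h5 ⊢
    rw [h3, h5]
    ring
  · show g (e (0 : AlgebraicClosure K) * 1 ^ 3) = e (0 : AlgebraicClosure K) * 1 ^ 3
    rw [map_zero, zero_mul, map_zero]

lemma exists_e' (K : Type) [Field K] [NumberField K] :
    Nonempty (AlgebraicClosure K ≃+* Qb) := by
  let iK : Algebra ℚ K := DivisionRing.toRatAlgebra
  have h1 : Algebra.IsAlgebraic ℚ K := Algebra.IsAlgebraic.of_finite ℚ K
  have h2 : IsAlgClosure ℚ (AlgebraicClosure K) :=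
    ⟨inferInstance, Algebra.IsAlgebraic.trans ℚ K (AlgebraicClosure K)⟩
  let e : AlgebraicClosure K ≃ₐ[ℚ] AlgebraicClosure ℚ :=
    IsAlgClosure.equiv ℚ (AlgebraicClosure K) (AlgebraicClosure ℚ)
  exact ⟨(e : AlgebraicClosure K ≃+* AlgebraicClosure ℚ)⟩

/-- **the coboundaries** -/
theorem cob_K (ha : a ^ 2 = a - 2) (hD : D ≠ 0) (hD₀ : algebraMap ℚ K D₀ = D)
    (hgen : IntermediateField.adjoin ℚ (Set.range (rr a)) = ⊤) {f : Coch (SE D)}
    (hf : Pool.Agent.TH841.NF.D.IsShaCoc (SE D) f)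
    (hv : ∀ σ, f σ = 0 ∨ f σ = T2 (conj_a ha) hD (AlgebraicClosure K)) (h2 : f + f = 0)
    (hsha : ∀ x : Pool.Agent.TH841.SH.D.Sha (SE D₀), 2 • x = 0 → x = 0) : IsCob (SE D) f := by
  obtain ⟨e⟩ := exists_e' K
  have h1 := Th_sha (scK hD₀) (show (SE D₀).a₁ = 0 from rfl) (show (SE D₀).a₃ = 0 from rfl) e
    (hrr ha) seven_ne hgen hf ∅
  have h3 : Th (scK hD₀) (show (SE D₀).a₁ = 0 from rfl) (show (SE D₀).a₃ = 0 from rfl) e
      (hrr ha) seven_ne ∅ f + Th (scK hD₀) (show (SE D₀).a₁ = 0 from rfl)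
        (show (SE D₀).a₃ = 0 from rfl) e (hrr ha) seven_ne ∅ f = 0 := by
    rw [← Th_add, h2]
    have h := Th_add (scK hD₀) (show (SE D₀).a₁ = 0 from rfl) (show (SE D₀).a₃ = 0 from rfl) e
      (hrr ha) seven_ne ∅ 0 0
    rw [add_zero] at h
    exact left_eq_add.1 h
  have hsha' : ∀ x : Pool.Agent.TH841.SH.D.Sha
      (tw (∏ i ∈ (∅ : Finset (Fin 1)), (fun _ : Fin 1 => (-7 : ℚ)) i) (SE D₀)),
      2 • x = 0 → x = 0 := by
    rw [tw_SE]
    exact hsha
  have h4 := cobQ_of_sha hsha' h1 h3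
  exact desc (scK hD₀) rfl rfl e (hrr ha) seven_ne hgen hv (conj_T ha hD hD₀ e) (Phi ha hD)
    (Phi_T' ha hD) (Phi_T ha hD) h4

end

end Pool.Agent.N818.TC
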