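import Mathlib

/-!
# A model of the field `ℚ(√-7)` with its conjugation
-/

set_option autoImplicit false

namespace Pool.Agent.N818.TC

/-- the polynomial has no rational roots -/
instance factK : Fact (∀ r : ℚ, r ^ 2 ≠ (-2) + 1 * r) :=
  ⟨fun r hr => by nlinarith [sq_nonneg (2 * r - 1)]⟩

/-- the field `ℚ(√-7)` -/
abbrev KK : Type := QuadraticAlgebra ℚ (-2) 1

instance nfK : NumberField KK :=
  { to_charZero := inferInstance
    to_finiteDimensional := inferInstance }

lemma finrank_KK : Module.finrank ℚ KK = 2 := QuadraticAlgebra.finrank_eq_two _ _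

attribute [-instance] DivisionRing.toRatAlgebra

/-- `(1 + √-7) / 2` -/
def aK : KK := ⟨0, 1⟩

lemma aK_sq : aK ^ 2 = aK - 2 := by
  have e : (2 : KK) = ⟨2, 0⟩ := rfl
  rw [pow_two, e]
  show (⟨0, 1⟩ : KK) * ⟨0, 1⟩ = ⟨0, 1⟩ - ⟨2, 0⟩
  rw [QuadraticAlgebra.mk_mul_mk, QuadraticAlgebra.mk_sub_mk]
  congr 1 <;> ring

/-- the conjugation -/
def cK : KK →+* KK where
  toFun x := ⟨x.re + x.im, -x.im⟩
  map_one' := by
    ext
    · show (1 : ℚ) + 0 = 1
      ring
    · show -(0 : ℚ) = 0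
      ring
  map_zero' := by
    ext
    · show (0 : ℚ) + 0 = 0
      ring
    · show -(0 : ℚ) = 0
      ring
  map_mul' x y := by
    ext
    · simp only [QuadraticAlgebra.re_mul, QuadraticAlgebra.im_mul]
      ring
    · simp only [QuadraticAlgebra.im_mul]
      ring
  map_add' x y := by
    ext
    · simp only [QuadraticAlgebra.re_add, QuadraticAlgebra.im_add]
      ring
    · simp only [QuadraticAlgebra.im_add]
      ring

lemma cK_cK (x : KK) : cK (cK x) = x := by
  ext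
  · show (x.re + x.im) + -x.im = x.re
    ring
  · show - -x.im = x.im
    ring

lemma cK_aK : cK aK = 1 - aK := by
  ext
  · show (0 : ℚ) + 1 = 1 - 0
    ring
  · show -(1 : ℚ) = 0 - 1
    ring

lemma cK_rat (q : ℚ) : cK (algebraMap ℚ KK q) = algebraMap ℚ KK q := by
  rw [QuadraticAlgebra.algebraMap_eq]
  ext
  · show q + 0 = q
    ring
  · show -(0 : ℚ) = 0
    ring

lemma cK_fix (x : KK) (h : cK x = x) : ∃ q : ℚ, algebraMap ℚ KK q = x := by
  have h1 : -x.im = x.im := congrArg QuadraticAlgebra.im h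
  refine ⟨x.re, ?_⟩
  rw [QuadraticAlgebra.algebraMap_eq]
  ext
  · rfl
  · show (0 : ℚ) = x.im
    linarith

lemma KK_eq (x : KK) : x = algebraMap ℚ KK x.re + algebraMap ℚ KK x.im * aK := by
  rw [QuadraticAlgebra.algebraMap_eq, QuadraticAlgebra.algebraMap_eq]
  show x = (⟨x.re, 0⟩ : KK) + ⟨x.im, 0⟩ * ⟨0, 1⟩
  rw [QuadraticAlgebra.mk_mul_mk]
  ext
  · show x.re = x.re + (x.im * 0 + -2 * 0 * 1)
    ring
  · show x.im = 0 + (x.im * 1 + 0 * 0 + 1 * 0 * 1)
    ring

lemma gen_K : IntermediateField.adjoin ℚ (Set.range fun _ : Fin 1 => 2 * aK - 1) = ⊤ := by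
  rw [eq_top_iff]
  intro x _
  set M := IntermediateField.adjoin ℚ (Set.range fun _ : Fin 1 => 2 * aK - 1) with hM
  have h1 : 2 * aK - 1 ∈ M := IntermediateField.subset_adjoin ℚ _ ⟨0, rfl⟩
  have h2 : aK ∈ M := by
    have e : aK = algebraMap ℚ KK (1 / 2) * (2 * aK - 1 + 1) := by
      have e1 : (algebraMap ℚ KK (1 / 2)) * 2 = 1 := by
        have e2 : (2 : KK) = algebraMap ℚ KK 2 := by rw [map_ofNat]
        rw [e2, ← map_mul, show (1 / 2 : ℚ) * 2 = 1 by norm_num, map_one]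
      linear_combination -(aK) * e1
    rw [e]
    exact M.mul_mem (M.algebraMap_mem _) (M.add_mem h1 M.one_mem)
  rw [KK_eq x]
  exact M.add_mem (M.algebraMap_mem _) (M.mul_mem (M.algebraMap_mem _) h2)

end Pool.Agent.N818.TC
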