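import Pool.Agent.N818.TC.Rev

/-!
# The Tate-Shafarevich group over `ℚ` from the one over `ℚ(√-7)`, the theorem
-/

set_option autoImplicit false
set_option linter.unusedSectionVars false

attribute [-instance] DivisionRing.toRatAlgebra

namespace Pool.Agent.N818.TC

open WeierstrassCurve NumberField IsDedekindDomain

open Pool.Agent.TH841.NF
open Pool.Agent.TH841.SH (IsR)
open Pool.Agent.TH841.SH.D (Pt act Gal Coch IsCoc IsCob LocTriv cob)

/-- points fixed by the Galois group -/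
lemma fixed_pt {K : Type} [Field K] [NumberField K] {W : WeierstrassCurve K}
    (X : Pt W (AlgebraicClosure K)) (h : ∀ σ : Gal K, act W σ.toAlgHom X = X) :
    ∃ P : Pt W K, act W (Algebra.ofId K (AlgebraicClosure K)) P = X := by
  rcases X with _ | ⟨x, y, hn⟩
  · exact ⟨0, map_zero _⟩
  · have hx : ∀ σ : Gal K, σ x = x ∧ σ y = y := fun σ => pt_inj _ _ (h σ)
    obtain ⟨x₀, rfl⟩ := (InfiniteGalois.mem_range_algebraMap_iff_fixed x).2 fun σ => (hx σ).1
    obtain ⟨y₀, rfl⟩ := (InfiniteGalois.mem_range_algebraMap_iff_fixed y).2 fun σ => (hx σ).2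
    have hn0 : (W.baseChange K).toAffine.Nonsingular x₀ y₀ :=
      (Affine.baseChange_nonsingular W (f := Algebra.ofId K (AlgebraicClosure K))
        (Algebra.ofId K (AlgebraicClosure K)).injective x₀ y₀).mp hn
    exact ⟨(Affine.Point.some x₀ y₀ hn0 : (W.baseChange K).toAffine.Point), rfl⟩

lemma act_ofId_inj {K : Type} [Field K] {W : WeierstrassCurve K} :
    Function.Injective (act W (Algebra.ofId K (AlgebraicClosure K))) := by
  intro P Q h
  rcases P with _ | ⟨x, y, hx⟩ <;> rcases Q with _ | ⟨x', y', hx'⟩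
  · rfl
  · cases h
  · cases h
  · have h' := pt_inj _ _ h
    exact pt_ext _ _ ((Algebra.ofId K (AlgebraicClosure K)).injective h'.1)
      ((Algebra.ofId K (AlgebraicClosure K)).injective h'.2)

lemma cQ_cF {F : Type} [Field F] [Algebra ℚ F] (e : AlgebraicClosure F ≃+* Qb) {g : Gal ℚ}
    (h : Fx e g) : cQ e (cF e g) = g := by
  refine AlgEquiv.ext fun x => ?_
  show e (cF e g (e.symm x)) = g x
  rw [e_cF e h, RingEquiv.apply_symm_apply]

/-- a class of order two -/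
lemma cobK_of_sha {K : Type} [Field K] [NumberField K] {W : WeierstrassCurve K}
    (hsha : ∀ x : Pool.Agent.TH841.NF.D.Sha W, 2 • x = 0 → x = 0) {f : Coch W}
    (hf : Pool.Agent.TH841.NF.D.IsShaCoc W f) (h2 : IsCob W (f + f)) : IsCob W f := by
  obtain ⟨f', hf'⟩ : ∃ f' : Pool.Agent.TH841.NF.D.shaCoc W, (f' : Coch W) = f := ⟨⟨f, hf⟩, rfl⟩
  obtain ⟨x, hx⟩ : ∃ x : Pool.Agent.TH841.NF.D.Sha W, x = QuotientAddGroup.mk f' := ⟨_, rfl⟩
  have key : f' + f' ∈ (cob W).addSubgroupOf (Pool.Agent.TH841.NF.D.shaCoc W) := by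
    rw [AddSubgroup.mem_addSubgroupOf]
    show IsCob W ((f' : Coch W) + (f' : Coch W))
    rw [hf']
    exact h2
  have hx2 : 2 • x = 0 := by
    rw [two_nsmul, hx]
    exact (QuotientAddGroup.eq_zero_iff (f' + f')).2 key
  have h5 := hsha x hx2
  rw [hx] at h5
  have h6 := (QuotientAddGroup.eq_zero_iff f').1 h5
  rw [AddSubgroup.mem_addSubgroupOf] at h6
  have h7 : IsCob W (f' : Coch W) := h6
  rwa [hf'] at h7

section main

variable {K : Type} [Field K] [NumberField K] [Algebra ℚ K] {a D : K} {D₀ : ℚ}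

/-- **`Ш(E/ℚ)[2] = 0` if `Ш(E/K)[2] = 0` and `E(K)` is finite** -/
theorem sha_Q (c : K →+* K) (ha : a ^ 2 = a - 2) (hD : D ≠ 0) (hc : ∀ x, c (c x) = x)
    (hca : c a = 1 - a) (hfix : ∀ x : K, c x = x → ∃ q : ℚ, algebraMap ℚ K q = x)
    (hD₀ : algebraMap ℚ K D₀ = D) (hcD : c D = D)
    (hgen : IntermediateField.adjoin ℚ (Set.range (rr a)) = ⊤)
    (hfin : Finite (SE D).toAffine.Point)
    (hsha : ∀ x : Pool.Agent.TH841.NF.D.Sha (SE D), 2 • x = 0 → x = 0)
    (x : Pool.Agent.TH841.SH.D.Sha (SE D₀)) (hx : 2 • x = 0) : x = 0 := by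
  classical
  obtain ⟨e⟩ := exists_e' K
  have hW : Sc (algebraMap ℚ K) 1 (SE D₀) (SE D) := scK hD₀
  rw [two_nsmul] at hx
  obtain ⟨f, rfl⟩ := QuotientAddGroup.mk_surjective x
  have hx' : f + f ∈ (cob (SE D₀)).addSubgroupOf (Pool.Agent.TH841.SH.D.shaCoc (SE D₀)) :=
    (QuotientAddGroup.eq_zero_iff (f + f)).1 hx
  rw [AddSubgroup.mem_addSubgroupOf] at hx'
  refine (QuotientAddGroup.eq_zero_iff f).2 ?_
  rw [AddSubgroup.mem_addSubgroupOf]
  have hff : IsCob (SE D₀) ((f : Coch (SE D₀)) + (f : Coch (SE D₀))) := hx'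
  have hcoc := f.2.1.2
  have hr2 : IsCob (SE D) (rs hW e f + rs hW e f) := by
    rw [← rs_add]
    exact rs_cob hW e hff
  obtain ⟨R, hR⟩ := cobK_of_sha hsha (rs_sha hW e f.2) hr2
  set F : Gal ℚ → Pt (SE D₀) Qb := (f : Coch (SE D₀)) with hF
  set Q := tm (sc_any hW (e : AlgebraicClosure K →+* Qb)) R with hQ
  set g : Gal ℚ → Pt (SE D₀) Qb := fun τ => F τ - (aG (SE D₀) τ Q - Q) with hg
  have hgm : ∀ σ τ : Gal ℚ, g (σ * τ) = g σ + aG (SE D₀) σ (g τ) := by
    intro σ τ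
    have h1 : F (σ * τ) = F σ + aG (SE D₀) σ (F τ) := hcoc σ τ
    show F (σ * τ) - (aG (SE D₀) (σ * τ) Q - Q) = F σ - (aG (SE D₀) σ Q - Q) +
      aG (SE D₀) σ (F τ - (aG (SE D₀) τ Q - Q))
    have h2 : aG (SE D₀) (σ * τ) Q = aG (SE D₀) σ (aG (SE D₀) τ Q) := by
      rw [map_mul]
      rfl
    rw [h1, h2, map_sub, map_sub]
    abel
  set H := HH e (hrr ha) seven_ne with hH
  have hmem : ∀ τ : Gal ℚ, τ ∈ H ↔ Fx e τ := fun τ => mem_HH e (hrr ha) seven_ne hgen τ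
  have hg0 : ∀ τ ∈ H, g τ = 0 := by
    intro τ hτ
    have h1 := cQ_cF e ((hmem τ).1 hτ)
    rw [← h1]
    set σ := cF e τ
    have h2 : F (cQ e σ) = tm (sc_any hW (e : AlgebraicClosure K →+* Qb)) (rs hW e f σ) :=
      (up_rs hW e f σ).symm
    have h3 : aG (SE D₀) (cQ e σ) Q =
        tm (sc_any hW (e : AlgebraicClosure K →+* Qb)) (act (SE D) σ.toAlgHom R) := by
      have := tr_act hW e (cQ_fx e σ) R
      rw [cF_cQ] at this
      exact this.symm
    show F (cQ e σ) - (aG (SE D₀) (cQ e σ) Q - Q) = 0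
    rw [h2, h3, hR, map_sub, ← hQ, sub_self]
  by_cases hall : ∀ τ, g τ = 0
  · exact ⟨Q, fun τ => sub_eq_zero.1 (hall τ)⟩
  push Not at hall
  obtain ⟨ρ, hρ⟩ := hall
  have hρH : ρ ∉ H := fun h => hρ (hg0 ρ h)
  -- the index is two
  have hroot : ∀ τ : Gal ℚ, τ ∈ H ↔ τ (rh e (rr a) 0) = rh e (rr a) 0 := by
    intro τ
    rw [hH]
    show τ ∈ Hs _ _ ↔ _
    rw [mem_Hs]
    exact ⟨fun h => h 0, fun h i => by rw [Fin.fin_one_eq_zero i]; exact h⟩
  have hneg : ∀ τ : Gal ℚ, τ ∉ H → τ (rh e (rr a) 0) = -rh e (rr a) 0 := by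
    intro τ hτ
    exact (pm (rh_sq e (hrr ha) 0) τ).resolve_left fun h => hτ ((hroot τ).2 h)
  have hinv : ρ⁻¹ (rh e (rr a) 0) = -rh e (rr a) 0 := by
    apply ρ.injective
    rw [← AlgEquiv.mul_apply, mul_inv_cancel, AlgEquiv.one_apply, map_neg, hneg ρ hρH, neg_neg]
  have hout : ∀ τ : Gal ℚ, τ ∉ H → ρ⁻¹ * τ ∈ H := by
    intro τ hτ
    rw [hroot, AlgEquiv.mul_apply, hneg τ hτ, map_neg, hinv, neg_neg]
  have hρρ : ρ * ρ ∈ H := by
    rw [hroot, AlgEquiv.mul_apply, hneg ρ hρH, map_neg, hneg ρ hρH, neg_neg]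
  have hN : H.Normal := by
    rw [hH]
    infer_instance
  have hconst : ∀ τ : Gal ℚ, τ ∉ H → g τ = g ρ := by
    intro τ hτ
    have h5 : τ = ρ * (ρ⁻¹ * τ) := by rw [mul_inv_cancel_left]
    rw [h5, hgm, hg0 _ (hout τ hτ), map_zero, add_zero]
  -- the group of the points over `K`
  let A : AddSubgroup (Pt (SE D₀) Qb) :=
    { carrier := {X | ∀ h ∈ H, aG (SE D₀) h X = X}
      zero_mem' := fun h _ => map_zero _
      add_mem' := fun {X Y} hX hY h hh => by rw [map_add, hX h hh, hY h hh]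
      neg_mem' := fun {X} hX h hh => by rw [map_neg, hX h hh] }
  have hUA : g ρ ∈ A := by
    intro h hh
    have h1 : g (h * ρ) = aG (SE D₀) h (g ρ) := by rw [hgm, hg0 h hh, zero_add]
    have h2 : h * ρ = ρ * (ρ⁻¹ * h * ρ) := by group
    have h3 : ρ⁻¹ * h * ρ ∈ H := by
      have := hN.conj_mem h hh ρ⁻¹
      rwa [inv_inv] at this
    rw [← h1, h2, hgm, hg0 _ h3, map_zero, add_zero]
  have hU : g ρ + aG (SE D₀) ρ (g ρ) = 0 := by
    rw [← hgm, hg0 _ hρρ]
  set ψ : Pt (SE D) K →+ Pt (SE D₀) Qb := (tm (sc_any hW (e : AlgebraicClosure K →+* Qb))).comp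
    (act (SE D) (Algebra.ofId K (AlgebraicClosure K))) with hψ
  have hψi : Function.Injective ψ := fun P P' h => act_ofId_inj
    (tm_inj (sc_any hW (e : AlgebraicClosure K →+* Qb)) h)
  have hinj : ∀ X Y, aG (SE D₀) ρ X = aG (SE D₀) ρ Y → X = Y := by
    have h1 : ∀ Z, aG (SE D₀) ρ⁻¹ (aG (SE D₀) ρ Z) = Z := by
      intro Z
      have h2 : (aG (SE D₀) ρ⁻¹ * aG (SE D₀) ρ) Z = Z := by
        rw [← map_mul, inv_mul_cancel, map_one]
        rfl
      exact h2
    intro X Y h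
    rw [← h1 X, h, h1]
  have hψA : ∀ X ∈ A, ∃ P, ψ P = X := by
    intro X hX
    obtain ⟨P, hP⟩ := fixed_pt (tm (sc_any' hW (e.symm : Qb →+* AlgebraicClosure K)) X)
      fun σ => by
        rw [← dn_act hW e]
        exact congrArg _ (hX _ ((hmem _).2 (cQ_fx e σ)))
    refine ⟨P, ?_⟩
    show tm (sc_any hW (e : AlgebraicClosure K →+* Qb))
      (act (SE D) (Algebra.ofId K (AlgebraicClosure K)) P) = X
    rw [hP]
    exact up_dn hW e X
  have hAψ : ∀ P, ψ P ∈ A := by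
    intro P h hh
    have h1 := cQ_cF e ((hmem h).1 hh)
    rw [← h1]
    have h2 := tr_act hW e (cQ_fx e (cF e h)) (act (SE D) (Algebra.ofId K (AlgebraicClosure K)) P)
    have h3 : ((cF e h).toAlgHom.comp (Algebra.ofId K (AlgebraicClosure K))) =
      Algebra.ofId K (AlgebraicClosure K) := Subsingleton.elim _ _
    rw [cF_cQ, act_act, h3] at h2
    exact h2.symm
  set Pa : Pt (SE D) K := T2 (conj_a ha) hD K with hPa
  set Pb : Pt (SE D) K := T2 ha hD K with hPb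
  have hact : ∀ {b : K} (hb : b ^ 2 = b - 2), act (SE D) (Algebra.ofId K (AlgebraicClosure K))
      (T2 hb hD K) = T2 hb hD (AlgebraicClosure K) := fun hb => pt_ext _ _ rfl (map_zero _)
  have hTa : ψ Pa = tm (sc_any hW (e : AlgebraicClosure K →+* Qb))
    (T2 (conj_a ha) hD (AlgebraicClosure K)) :=
    congrArg (tm (sc_any hW (e : AlgebraicClosure K →+* Qb))) (hact (conj_a ha))
  have hTb : ψ Pb = tm (sc_any hW (e : AlgebraicClosure K →+* Qb))
    (T2 ha hD (AlgebraicClosure K)) :=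
    congrArg (tm (sc_any hW (e : AlgebraicClosure K →+* Qb))) (hact ha)
  have hρT : aG (SE D₀) ρ (ψ Pa) = ψ Pb := by
    rw [hTa, hTb]
    exact conj_T ha hD hD₀ e ρ hρH
  have hIs := isR_SE (D := D) ha K
  have hne : algebraMap K K (rt a D) ≠ algebraMap K K (rt (1 - a) D) := fun h => rt_ne ha hD h.symm
  have hPne : Pa ≠ Pb := by
    intro h
    exact hne (pt_inj _ _ h).1.symm
  have hdbl : Pa + Pa = 0 := (hIs.add_self two_ne_zero (ns_rt (conj_a ha) hD K)).2 rfl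
  obtain ⟨V, hVA, hV⟩ := h1_zero A (aG (SE D₀) ρ) (hAψ Pa) hρT (by
    intro X hX h2 hρX
    obtain ⟨P, rfl⟩ := hψA X hX
    have h2' : P + P = 0 := hψi (by rw [map_add, h2, map_zero])
    rcases hIs.tors two_ne_zero h2' with h | ⟨hn, h⟩ | ⟨hn, h⟩ | ⟨hn, h⟩
    · left
      have h' : P = 0 := h
      rw [h', map_zero]
    · exfalso
      have h' : P = Pb := h
      rw [h'] at hρX
      exact hPne (hψi (hinj _ _ (hρT.trans hρX.symm)))
    · exfalso
      have h' : P = Pa := h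
      rw [h'] at hρX
      exact hPne (hψi (hρX.symm.trans hρT))
    · right
      rw [← map_sub]
      congr 1
      obtain ⟨hc', h3⟩ := hIs.add_two hne (ns_rt ha hD K) (ns_rt (conj_a ha) hD K)
      have h4 : P = Pb + Pa := h.trans h3.symm
      rw [h4, sub_eq_add_neg]
      congr 1
      exact (eq_neg_of_add_eq_zero_left hdbl)) (by
    intro X hX h
    obtain ⟨P, rfl⟩ := hψA X hX
    have h' : (P + P) + (P + P) = 0 := hψi (by rw [map_add, map_add, h, map_zero])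
    have h3 : P + P = 0 := no_four ha hD c hc hca hfix hD₀ hcD P h'
    rw [← map_add, h3, map_zero]) hUA (by
    obtain ⟨P, hP⟩ := hψA _ hUA
    have hfin' : Finite (Pt (SE D) K) := hfin
    obtain ⟨n, hn, hn0⟩ := isOfFinAddOrder_iff_nsmul_eq_zero.1 (isOfFinAddOrder_of_finite P)
    exact ⟨n, hn, by rw [← hP, ← map_nsmul, hn0, map_zero]⟩) hU
  refine ⟨Q + V, fun τ => ?_⟩
  have h1 : F τ = g τ + (aG (SE D₀) τ Q - Q) := by
    show F τ = F τ - (aG (SE D₀) τ Q - Q) + (aG (SE D₀) τ Q - Q)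
    abel
  have h2 : g τ = aG (SE D₀) τ V - V := by
    by_cases hτ : τ ∈ H
    · rw [hg0 τ hτ, hVA τ hτ, sub_self]
    · rw [hconst τ hτ, hV]
      congr 1
      have h5 : τ = ρ * (ρ⁻¹ * τ) := by rw [mul_inv_cancel_left]
      have h6 : aG (SE D₀) τ V = aG (SE D₀) ρ (aG (SE D₀) (ρ⁻¹ * τ) V) := by
        conv_lhs => rw [h5]
        rw [map_mul]
        rfl
      exact (h6.trans (congrArg _ (hVA _ (hout τ hτ)))).symm
  show F τ = aG (SE D₀) τ (Q + V) - (Q + V)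
  rw [h1, h2, map_add]
  abel

end main

end Pool.Agent.N818.TC
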