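import Pool.Agent.R426.QD.Sh
import Pool.Agent.N818.TC.Tran
import Pool.Agent.N818.TC.Rev2

/-!
# Finiteness and the 2-torsion of the Tate-Shafarevich group over `ℚ(√-7)`
-/

set_option autoImplicit false
set_option linter.unusedSectionVars false

attribute [-instance] DivisionRing.toRatAlgebra

open NumberField IsDedekindDomain

namespace Pool.Agent.N818.TC

open Pool.Agent.R426 Pool.Agent.R426.QD
open Pool.Agent.R426.QC hiding bR trace_D prime_fR
open Pool.Agent.Y698 Pool.Agent.Y698.SG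
open H667R3 Pool.Agent.W192.HK Pool.Agent.TH936.CM Pool.Agent.TH936.PU
open WithZero
open Pool.Agent.Y682 (S1 S2 IsT Zc Zc_card Zc_lower LL1 LL2 quot_eq)
open Pool.Agent.TH841.SH.D (Pt act Gal Coch IsCoc IsCob LocTriv cob)
open Pool.Agent.R432 (NH pt_congr trH trH_some trH_inv Tr iC iC_sha iC_coc trF trF_some)

section

variable {K : Type} [Field K] [NumberField K] [Algebra ℚ K] (e : RR ≃+* 𝓞 K)

/-- the statement for the model with the rational point of order two at the origin -/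
theorem sha_W {ι : Type} [DecidableEq ι] {I : Finset ι} {π : ι → RR} (hS : QD.Ev I π)
    (hg : gd (mc π) (mr π) I ≠ 0) {J : RR} (hJ : ∏ i ∈ I, π i = 1 + 4 * J) :
    Finite (Cv.WF (cA (em e aR) (1 + 4 * em e J)) (cB (em e aR) (1 + 4 * em e J))).toAffine.Point ∧
      ∀ x : Pool.Agent.TH841.NF.D.Sha
        (Cv.WF (cA (em e aR) (1 + 4 * em e J)) (cB (em e aR) (1 + 4 * em e J))),
        2 • x = 0 → x = 0 := by
  classical
  set a := em e aR with ha'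
  have ha : a ^ 2 = a - 2 := ema_sq e
  set j := em e J with hj
  have hDj : em e (∏ i ∈ I, π i) = 1 + 4 * j := by
    rw [hJ, map_add, map_mul, map_one, map_ofNat]
  have hD0' : (1 + 4 * j) ≠ 0 := by
    rw [← hDj]
    exact em_ne e hS.sqf.ne_zero
  have hT' : IsT (E2 K j (-((1 + 4 * j) * eB a))) (cA a (1 + 4 * j)) (cB a (1 + 4 * j)) :=
    isT_E2 ha hD0'
  have hWe : E2 K j (-((1 + 4 * j) * eB a)) = Cv.WF (cA a (1 + 4 * j)) (cB a (1 + 4 * j)) := by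
    ext
    · exact hT'.h1
    · exact hT'.h2
    · exact hT'.h3
    · exact hT'.h4
    · exact hT'.h6
  rw [hWe] at hT'
  set W := Cv.WF (cA a (1 + 4 * j)) (cB a (1 + 4 * j)) with hW
  have hT : IsT W (cA a (1 + 4 * j)) (cB a (1 + 4 * j)) := hT'
  have hP0 : fR * ∏ i ∈ I, π i ≠ 0 := mul_ne_zero fR_ne hS.sqf.ne_zero
  have hD0 : em e (fR * ∏ i ∈ I, π i) ≠ 0 := em_ne e hP0
  have hD1 : em e (-(fR * ∏ i ∈ I, π i)) ≠ 0 := em_ne e (neg_ne_zero.2 hP0)
  have card2 : ∀ d : Kˣ, Nat.card ({(1 : Kˣ ⧸ Pool.Agent.Y682.Sq K),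
      ((d : Kˣ) : Kˣ ⧸ Pool.Agent.Y682.Sq K)} : Set (Kˣ ⧸ Pool.Agent.Y682.Sq K)) ≤ 2 := by
    intro d
    have h1 : ({(1 : Kˣ ⧸ Pool.Agent.Y682.Sq K), ((d : Kˣ) : Kˣ ⧸ Pool.Agent.Y682.Sq K)} :
        Set (Kˣ ⧸ Pool.Agent.Y682.Sq K)).ncard ≤ 2 := by
      refine (Set.ncard_insert_le _ _).trans ?_
      rw [Set.ncard_singleton]
    exact h1
  have key : ∀ (d : K) (hd : d ≠ 0) (b : Kˣ), (∃ c : K, (b : K) = c ^ 2 ∨ (b : K) = d * c ^ 2) →
      (b : Kˣ ⧸ Pool.Agent.Y682.Sq K) ∈ ({(1 : Kˣ ⧸ Pool.Agent.Y682.Sq K),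
        ((Units.mk0 d hd : Kˣ) : Kˣ ⧸ Pool.Agent.Y682.Sq K)} : Set (Kˣ ⧸ Pool.Agent.Y682.Sq K)) := by
    rintro d hd b ⟨c, hc⟩
    have hc0 : c ≠ 0 := by
      rintro rfl
      rcases hc with hc | hc
      · rw [zero_pow two_ne_zero] at hc; exact b.ne_zero hc
      · rw [zero_pow two_ne_zero, mul_zero] at hc; exact b.ne_zero hc
    rcases hc with hc | hc
    · left
      have h1 : (1 : Kˣ ⧸ Pool.Agent.Y682.Sq K) = ((1 : Kˣ) : Kˣ ⧸ Pool.Agent.Y682.Sq K) := rfl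
      rw [h1, eq_comm, quot_eq]
      refine ⟨Units.mk0 c hc0, Units.ext ?_⟩
      rw [Units.val_mul, Units.val_one, one_mul, Units.val_pow_eq_pow_val, Units.val_mk0, hc]
    · right
      show (b : Kˣ ⧸ Pool.Agent.Y682.Sq K) = ((Units.mk0 d hd : Kˣ) : Kˣ ⧸ Pool.Agent.Y682.Sq K)
      rw [eq_comm, quot_eq]
      refine ⟨Units.mk0 c hc0, Units.ext ?_⟩
      rw [Units.val_mul, Units.val_pow_eq_pow_val, Units.val_mk0, Units.val_mk0, hc]
  have H1 : ∀ b : Kˣ, LL1 (cA a (1 + 4 * j)) (cB a (1 + 4 * j)) (b : K) →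
      (b : Kˣ ⧸ Pool.Agent.Y682.Sq K) ∈ ({(1 : Kˣ ⧸ Pool.Agent.Y682.Sq K),
        ((Units.mk0 _ hD0 : Kˣ) : Kˣ ⧸ Pool.Agent.Y682.Sq K)} :
          Set (Kˣ ⧸ Pool.Agent.Y682.Sq K)) := by
    intro b hb
    apply key _ hD0
    apply sel1D e hS hg b.ne_zero
    intro v
    rw [hDj]
    exact hb.1 v
  have H2 : ∀ b : Kˣ, LL2 (cA a (1 + 4 * j)) (cB a (1 + 4 * j)) (b : K) →
      (b : Kˣ ⧸ Pool.Agent.Y682.Sq K) ∈ ({(1 : Kˣ ⧸ Pool.Agent.Y682.Sq K),
        ((Units.mk0 _ hD1 : Kˣ) : Kˣ ⧸ Pool.Agent.Y682.Sq K)} :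
          Set (Kˣ ⧸ Pool.Agent.Y682.Sq K)) := by
    intro b hb
    apply key _ hD1
    apply sel2D e hS hg b.ne_zero
    intro v
    rw [hDj]
    exact hb.1 v
  have hf1 : Finite ({(1 : Kˣ ⧸ Pool.Agent.Y682.Sq K),
        ((Units.mk0 _ hD0 : Kˣ) : Kˣ ⧸ Pool.Agent.Y682.Sq K)} :
          Set (Kˣ ⧸ Pool.Agent.Y682.Sq K)) := (Set.toFinite _).to_subtype
  have hf2 : Finite ({(1 : Kˣ ⧸ Pool.Agent.Y682.Sq K),
        ((Units.mk0 _ hD1 : Kˣ) : Kˣ ⧸ Pool.Agent.Y682.Sq K)} :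
          Set (Kˣ ⧸ Pool.Agent.Y682.Sq K)) := (Set.toFinite _).to_subtype
  obtain ⟨hfz, hc⟩ := Zc_card hT (Or.inl rfl) H1 H2
  obtain ⟨h3, h4⟩ := Zc_lower hT
  have h6 : Nat.card (Zc W) ≤ 4 := by
    refine hc.trans ?_
    have k1 := card2 (Units.mk0 _ hD0)
    have k2 := card2 (Units.mk0 _ hD1)
    exact (Nat.mul_le_mul k1 k2).trans (by norm_num)
  have h8 := h4.trans h6
  have hpos : 0 < Nat.card {x : Pool.Agent.TH841.NF.D.Sha W // 2 • x = 0} := by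
    have : Nonempty {x : Pool.Agent.TH841.NF.D.Sha W // 2 • x = 0} := ⟨⟨0, smul_zero _⟩⟩
    exact Nat.card_pos
  have hr : Module.finrank ℤ (Pool.Agent.Y682.MP W) = 0 := by
    by_contra hne
    have h7 : 2 ≤ 2 ^ (Module.finrank ℤ (Pool.Agent.Y682.MP W)) := by
      calc 2 = 2 ^ 1 := by norm_num
        _ ≤ _ := Nat.pow_le_pow_right (by norm_num) (by omega)
    nlinarith
  constructor
  · have hfg : Module.Finite ℤ (Pool.Agent.Y682.MP W) := Pool.Agent.Y682.fg_MP hT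
    have htors := Module.finrank_eq_zero_iff_isTorsion.1 hr
    exact Module.finite_of_fg_torsion (Pool.Agent.Y682.MP W) htors
  · intro x hx
    have h5 : Nat.card {x : Pool.Agent.TH841.NF.D.Sha W // 2 • x = 0} ≤ 1 := by
      have h7 : 1 ≤ 2 ^ (Module.finrank ℤ (Pool.Agent.Y682.MP W)) := Nat.one_le_two_pow
      nlinarith
    have h6 : Subsingleton {x : Pool.Agent.TH841.NF.D.Sha W // 2 • x = 0} :=
      Finite.card_le_one_iff_subsingleton.1 h5
    have h7 := @Subsingleton.elim _ h6 ⟨x, hx⟩ ⟨0, smul_zero _⟩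
    exact congrArg Subtype.val h7

/-- a change of the variable `x` does not change the 2-torsion of the group -/
lemma sha_Tr {W W' : WeierstrassCurve K} {r : K} (S : Tr r W W') (S' : Tr (-r) W' W)
    (h : ∀ x : Pool.Agent.TH841.NF.D.Sha W, 2 • x = 0 → x = 0)
    (x : Pool.Agent.TH841.NF.D.Sha W') (hx : 2 • x = 0) : x = 0 := by
  classical
  rw [two_nsmul] at hx
  obtain ⟨f, rfl⟩ := QuotientAddGroup.mk_surjective x
  have hx' : f + f ∈ (cob W').addSubgroupOf (Pool.Agent.TH841.NF.D.shaCoc W') :=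
    (QuotientAddGroup.eq_zero_iff (f + f)).1 hx
  rw [AddSubgroup.mem_addSubgroupOf] at hx'
  refine (QuotientAddGroup.eq_zero_iff f).2 ?_
  rw [AddSubgroup.mem_addSubgroupOf]
  have hff : IsCob W' ((f : Coch W') + (f : Coch W')) := hx'
  have h1 := iC_sha (NH.tr S') f.2
  have h2 : IsCob W (iC (NH.tr S') (f : Coch W') + iC (NH.tr S') (f : Coch W')) := by
    rw [← Pool.Agent.R432.iC_add]
    exact iC_cob (NH.tr S') hff
  have h3 := cobK_of_sha h h1 h2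
  have h4 := iC_cob (NH.tr S) h3
  have hS'' : Tr (-(-r)) W W' := by rwa [neg_neg]
  have h5 : iC (NH.tr S) (iC (NH.tr S') (f : Coch W')) = (f : Coch W') := by
    have e1 : iC (NH.tr S) (iC (NH.tr S') (f : Coch W')) =
        iC (NH.tr hS'') (iC (NH.tr S') (f : Coch W')) := by
      have : ∀ (r' : K) (h' : Tr r' W W'), r' = r → iC (NH.tr S) = iC (NH.tr h') := by
        rintro r' h' rfl
        rfl
      rw [this _ hS'' (neg_neg r)]
    rw [e1]
    funext σ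
    exact trH_inv S' hS'' (AlgebraicClosure K) ((f : Coch W') σ)
  rw [h5] at h4
  exact h4

/-- **the statement for the short model** -/
theorem sha_SE {ι : Type} [DecidableEq ι] {I : Finset ι} {π : ι → RR} (hS : QD.Ev I π)
    (hg : gd (mc π) (mr π) I ≠ 0) {J : RR} (hJ : ∏ i ∈ I, π i = 1 + 4 * J) :
    Finite (SE (1 + 4 * em e J)).toAffine.Point ∧
      ∀ x : Pool.Agent.TH841.NF.D.Sha (SE (1 + 4 * em e J)), 2 • x = 0 → x = 0 := by
  obtain ⟨h1, h2⟩ := sha_W e hS hg hJ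
  have ha := ema_sq e
  constructor
  · exact Finite.of_injective _ (trF_inj (trB (D := 1 + 4 * em e J) ha))
  · exact sha_Tr (trA (D := 1 + 4 * em e J) ha) (trB (D := 1 + 4 * em e J) ha) h2

end

end Pool.Agent.N818.TC
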