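import Pool.Agent.N818.TC.Cnv
import Pool.Agent.N818.TC.Shk
import Pool.Agent.N818.TC.Kc

/-!
# The exact criterion over `ℚ`
-/

set_option autoImplicit false
set_option linter.unusedSectionVars false

attribute [-instance] DivisionRing.toRatAlgebra

open NumberField IsDedekindDomain

namespace Pool.Agent.N818.TC

open WeierstrassCurve
open Pool.Agent.R426 Pool.Agent.R426.QD
open Pool.Agent.R426.QC hiding bR trace_D prime_fR lg_sy
open Pool.Agent.Y698
open Pool.Agent.Y698.SG hiding lg_sy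
open Pool.Agent.TH841.NF (Sc tm tm_some pt_ext pt_inj tF ns_iff tF_some)

lemma tF_inj {F1 F2 : Type} [Field F1] [Field F2] [DecidableEq F1] [DecidableEq F2] {ι : F1 →+* F2}
    {u : F2} {W : WeierstrassCurve F1} {W' : WeierstrassCurve F2} (S : Sc ι u W W') :
    Function.Injective (tF S) := by
  have hu := S.hu
  rintro (_ | ⟨x, y, h⟩) (_ | ⟨x', y', h'⟩) he
  · rfl
  · exact absurd he (by rintro ⟨⟩)
  · exact absurd he (by rintro ⟨⟩)
  · have he' : (Affine.Point.some (ι x * u ^ 2) (ι y * u ^ 3) ((ns_iff S x y).2 h) :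
        W'.toAffine.Point) = Affine.Point.some (ι x' * u ^ 2) (ι y' * u ^ 3)
          ((ns_iff S x' y').2 h') := he
    rw [Affine.Point.some.injEq] at he'
    obtain ⟨h1, h2⟩ := he'
    have h3 : x = x' := ι.injective (mul_right_cancel₀ (pow_ne_zero 2 hu) h1)
    have h4 : y = y' := ι.injective (mul_right_cancel₀ (pow_ne_zero 3 hu) h2)
    subst h3 h4
    rfl

/-- the ring of integers of the model -/
theorem exists_eK : ∃ e : RR ≃+* 𝓞 KK, em e aR = aK := by
  obtain ⟨e, he⟩ := Pool.Agent.R426.QC.exists_iso aK_sq finrank_KK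
  exact ⟨e, (em_apply e aR).trans ((he aR).trans (ev_aR _ _))⟩

/-- **the exact criterion** -/
theorem crit {j : ℤ} {S : Finset RR} (hE : Ev S (fun p => p))
    (hprod : ∏ p ∈ S, p = 1 + 4 * (j : RR)) :
    (Finite (SE (1 + 4 * (j : ℚ))).toAffine.Point ∧
      ∀ x : Pool.Agent.TH841.SH.D.Sha (SE (1 + 4 * (j : ℚ))), 2 • x = 0 → x = 0) ↔
    gd (mc fun p : RR => p) (mr fun p : RR => p) S ≠ 0 := by
  classical
  obtain ⟨e, he⟩ := exists_eK
  constructor
  · rintro ⟨h1, h2⟩ h0
    refine convQ e hE ?_ hprod cK cK_cK ?_ cK_fix ?_ h1 h2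
    · convert h0
    · rw [he, cK_aK]
    · rw [he]
      exact gen_K
  · intro hg
    have hg' : gd (mc fun p : RR => p) (mr fun p : RR => p) S ≠ 0 := by convert hg
    obtain ⟨h1, h2⟩ := sha_SE e hE hg hprod
    have hem : em e (j : RR) = (j : KK) := map_intCast _ _
    rw [hem] at h1 h2
    have hDK : algebraMap ℚ KK (1 + 4 * (j : ℚ)) = 1 + 4 * (j : KK) := by
      rw [map_add, map_mul, map_one, map_ofNat, map_intCast]
    have hD : (1 + 4 * (j : KK)) ≠ 0 := by
      have h3 : (1 + 4 * j : ℤ) ≠ 0 := by omega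
      have h4 : ((1 + 4 * j : ℤ) : KK) ≠ 0 := by exact_mod_cast h3
      push_cast at h4
      exact h4
    have hcD : cK (1 + 4 * (j : KK)) = 1 + 4 * (j : KK) := by
      rw [← hDK, cK_rat]
    refine ⟨?_, fun x hx => sha_Q cK aK_sq hD cK_cK cK_aK cK_fix hDK hcD gen_K h1 h2 x hx⟩
    exact Finite.of_injective _ (tF_inj (scK hDK))

end Pool.Agent.N818.TC
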