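import Pool.Agent.TH841.NF.Hom
import Pool.Agent.R432.Iso

/-!
# Descent of coboundaries from a number field to `ℚ`, with an endomorphism
-/

set_option autoImplicit false
set_option linter.unusedSectionVars false

attribute [-instance] DivisionRing.toRatAlgebra

namespace Pool.Agent.N818.TC

open WeierstrassCurve

open Pool.Agent.TH841.NF
open Pool.Agent.TH841.SH.D (Pt act Gal Coch IsCoc IsCob LocTriv cob)
open Pool.Agent.R432 (NH)

section desc

variable {F : Type} [Field F] [Algebra ℚ F] {E : WeierstrassCurve ℚ} {W : WeierstrassCurve F}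
  (hW : Sc (algebraMap ℚ F) 1 E W) (E1 : E.a₁ = 0) (E3 : E.a₃ = 0)
  (e : AlgebraicClosure F ≃+* Qb)
  {n : ℕ} {r : Fin n → F} {d : Fin n → ℚ} (hr : ∀ i, r i ^ 2 = algebraMap ℚ F (d i))
  (hd : ∀ i, d i ≠ 0) (hgen : IntermediateField.adjoin ℚ (Set.range r) = ⊤)

include hgen in
/-- If the corestriction of `f` is a coboundary, and an endomorphism `Φ` fixes the values of `f` and
kills their conjugates, then `f` is a coboundary. -/
theorem desc {f : Coch W} {T T' : Pt W (AlgebraicClosure F)} (hf : ∀ σ, f σ = 0 ∨ f σ = T)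
    (hT : ∀ g : Gal ℚ, g ∉ HH e hr hd →
      aG E g (tm (sc_any hW (e : AlgebraicClosure F →+* Qb)) T) =
        tm (sc_any hW (e : AlgebraicClosure F →+* Qb)) T')
    (Φ : NH W W) (h1 : Φ.f (AlgebraicClosure F) T = T) (h2 : Φ.f (AlgebraicClosure F) T' = 0)
    (h : IsCob (tw (∏ i ∈ (∅ : Finset (Fin n)), d i) E) (Th hW E1 E3 e hr hd ∅ f)) :
    IsCob W f := by
  classical
  obtain ⟨P, hP⟩ := h
  obtain ⟨Q, hQ⟩ := tw_surj E1 E3 (prod_sq (rh_sq e hr) (∅ : Finset (Fin n)))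
    (Finset.prod_ne_zero_iff.2 fun i _ => rh_ne e hr hd i)
    (sc_tw E1 E3 (RingHom.id Qb) (prod_sq (rh_sq e hr) (∅ : Finset (Fin n)))
    (Finset.prod_ne_zero_iff.2 fun i _ => rh_ne e hr hd i)) P
  have k1 : ∀ (g : Gal ℚ), g ∈ HH e hr hd →
      cor (sec (HH e hr hd)) (aG E) (chT (rh_sq e hr) (rh_ne e hr hd) ∅) (tr hW e f) g =
        aG E g Q - Q := by
    intro g hg
    apply tm_inj (sc_tw E1 E3 (RingHom.id Qb) (prod_sq (rh_sq e hr) (∅ : Finset (Fin n)))
      (Finset.prod_ne_zero_iff.2 fun i _ => rh_ne e hr hd i))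
    refine (hP g).trans ?_
    rw [map_sub, hQ]
    congr 1
    have h3 := tw_act (sc_tw E1 E3 (RingHom.id Qb) (prod_sq (rh_sq e hr) (∅ : Finset (Fin n)))
      (Finset.prod_ne_zero_iff.2 fun i _ => rh_ne e hr hd i)) g.toAlgHom _
      (chT_pm (rh_sq e hr) (rh_ne e hr hd) ∅ g) (chT_spec (rh_sq e hr) (rh_ne e hr hd) ∅ g) Q
    rw [chT_H _ _ ∅ g hg, one_smul, hQ] at h3
    exact h3.symm
  obtain ⟨R, hR⟩ := any_surj hW e Q
  -- the subgroup of the killed points
  set B : AddSubgroup (Pt E Qb) := AddSubgroup.map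
    (tm (sc_any hW (e : AlgebraicClosure F →+* Qb))) (Φ.f (AlgebraicClosure F)).ker with hB
  have hTB : tm (sc_any hW (e : AlgebraicClosure F →+* Qb)) T' ∈ B :=
    ⟨T', (AddMonoidHom.mem_ker).2 h2, rfl⟩
  have hN : (HH e hr hd).Normal := inferInstance
  have k2 : ∀ g ∈ HH e hr hd, ∃ b ∈ B,
      cor (sec (HH e hr hd)) (aG E) (chT (rh_sq e hr) (rh_ne e hr hd) ∅) (tr hW e f) g =
        tr hW e f g + b := by
    intro g hg
    have hq : ∀ q : Gal ℚ ⧸ HH e hr hd, g • q = q := by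
      intro q
      induction q using QuotientGroup.induction_on with
      | H x =>
        change ((g * x : Gal ℚ) : Gal ℚ ⧸ HH e hr hd) = x
        rw [eq_comm, QuotientGroup.eq, ← mul_assoc]
        have := hN.conj_mem g hg x⁻¹
        rwa [inv_inv] at this
    refine ⟨∑ q ∈ Finset.univ.erase ((1 : Gal ℚ) : Gal ℚ ⧸ HH e hr hd),
      chT (rh_sq e hr) (rh_ne e hr hd) ∅ (sec (HH e hr hd) (g • q)) •
        aG E (sec (HH e hr hd) (g • q)) (tr hW e f ((sec (HH e hr hd) (g • q))⁻¹ * g *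
          sec (HH e hr hd) q)), ?_, ?_⟩
    · refine AddSubgroup.sum_mem _ fun q hq' => AddSubgroup.zsmul_mem _ ?_ _
      rw [hq q]
      have hs : sec (HH e hr hd) q ∉ HH e hr hd := by
        intro hmem
        apply (Finset.mem_erase.1 hq').1
        rw [← sec_spec (HH e hr hd) q, eq_comm, QuotientGroup.eq]
        simpa using hmem
      unfold tr
      rcases hf (cF e ((sec (HH e hr hd) q)⁻¹ * g * sec (HH e hr hd) q)) with h3 | h3
      · rw [h3, map_zero, map_zero]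
        exact B.zero_mem
      · rw [h3, hT _ hs]
        exact hTB
    · unfold cor
      rw [← Finset.add_sum_erase _ _ (Finset.mem_univ ((1 : Gal ℚ) : Gal ℚ ⧸ HH e hr hd))]
      congr 1
      rw [hq, sec_one, map_one, one_smul, a_one, inv_one, one_mul, mul_one]
  refine ⟨Φ.f (AlgebraicClosure F) R, fun σ => ?_⟩
  have hσ : Fx e (cQ e σ) := cQ_fx e σ
  have hσ' : cQ e σ ∈ HH e hr hd := (mem_HH e hr hd hgen _).2 hσ
  obtain ⟨b, ⟨y, hy, rfl⟩, h3⟩ := k2 _ hσ'
  rw [k1 _ hσ', tr_cQ, ← hR] at h3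
  have h4 : aG E (cQ e σ) (tm (sc_any hW (e : AlgebraicClosure F →+* Qb)) R) =
      tm (sc_any hW (e : AlgebraicClosure F →+* Qb)) (act W σ.toAlgHom R) := by
    have := tr_act hW e hσ R
    rw [cF_cQ] at this
    exact this.symm
  rw [h4, ← map_sub, ← map_add] at h3
  have h5 := tm_inj _ h3
  have h6 := congrArg (Φ.f (AlgebraicClosure F)) h5
  have hy0 : Φ.f (AlgebraicClosure F) y = 0 := (AddMonoidHom.mem_ker).1 hy
  rw [map_sub, map_add, hy0, add_zero, ← Φ.nat] at h6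
  have h7 : Φ.f (AlgebraicClosure F) (f σ) = f σ := by
    rcases hf σ with h8 | h8
    · rw [h8, map_zero]
    · rw [h8, h1]
  rw [h7] at h6
  exact h6.symm

end desc

end Pool.Agent.N818.TC
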