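import Pool.Agent.R426.QD.Pn

/-!
# Rational integers in the ring of integers of `ℚ(√-7)`
-/

set_option autoImplicit false
set_option linter.unusedSectionVars false

namespace Pool.Agent.N818.TC

open Pool.Agent.Y698 Pool.Agent.Y698.SG
open Pool.Agent.R426.QC (prime_cases In sy_negm sy_sp sy_int)
open Pool.Agent.R426.QD (r4 r4_eq r4_a sy_mul_deg)
open Pool.Agent.Y279.SG (dvd_coord nR_dvd cXY_cj)
open Pool.Agent.W192.HK (sp)
open scoped Classical

lemma cX_int (n : ℤ) : cX (n : RR) = n := (cXY_int n).1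

/-- divisibility of integers -/
lemma int_dvd {m n : ℤ} (h : ((m : ℤ) : RR) ∣ ((n : ℤ) : RR)) : m ∣ n := by
  have h1 := (dvd_coord h).1
  rwa [cX_int] at h1

lemma nR_int' (n : ℤ) : nR (n : RR) = n ^ 2 := by
  unfold nR
  rw [(cXY_int n).1, (cXY_int n).2]
  ring

lemma nR_dvd' {x y : RR} (h : y ∣ x) : nR y ∣ nR x := by
  obtain ⟨c, rfl⟩ := h
  rw [nR_mul]
  exact Dvd.intro _ rfl

lemma mul_cj_prime {p : ℕ} {ϖ : RR} (hN : nR ϖ = p) : ϖ * cj ϖ = (p : RR) := by
  rw [mul_cj, hN, Int.cast_natCast]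

lemma cj_dvd' {x y : RR} : cj x ∣ cj y ↔ x ∣ y := by
  constructor
  · intro h
    have := map_dvd cj h
    rwa [cj_cj, cj_cj] at this
  · exact fun h => map_dvd cj h

lemma prime_cj {ϖ : RR} (h : Prime ϖ) : Prime (cj ϖ) := by
  refine ⟨fun h0 => h.ne_zero ?_, fun hu => h.not_isUnit ?_, fun x y hxy => ?_⟩
  · rw [← cj_cj ϖ, h0, map_zero]
  · have := hu.map cj
    rwa [cj_cj] at this
  · have h1 : ϖ ∣ cj x * cj y := by
      rw [← cj_dvd', map_mul, cj_cj, cj_cj]
      exact hxy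
    rcases h.dvd_or_dvd h1 with h2 | h2
    · left
      rw [← cj_dvd', cj_cj]
      exact h2
    · right
      rw [← cj_dvd', cj_cj]
      exact h2

/-- a prime element of norm `p ≠ 7` does not divide its conjugate -/
lemma not_dvd_cj {p : ℕ} (hp : p.Prime) (h7 : p ≠ 7) {ϖ : RR} (hϖ : Prime ϖ) (hN : nR ϖ = p) :
    ¬ ϖ ∣ cj ϖ := by
  intro h
  obtain ⟨u, hu⟩ := h
  have hn : nR u = 1 := by
    have h1 := congrArg nR hu
    rw [nR_mul, Pool.Agent.Y698.SG.nR_cj] at h1
    have h2 : nR ϖ ≠ 0 := by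
      rw [hN]
      exact_mod_cast hp.ne_zero
    have h3 : nR ϖ * (nR u - 1) = 0 := by linear_combination -h1
    have h4 := (mul_eq_zero.1 h3).resolve_left h2
    omega
  have hunit : IsUnit u := by
    refine IsUnit.of_mul_eq_one (cj u) ?_
    rw [mul_cj, hn, Int.cast_one]
  have hc := cXY_cj ϖ
  have hnf : nR ϖ = cX ϖ ^ 2 + cX ϖ * cY ϖ + 2 * cY ϖ ^ 2 := rfl
  rw [hN] at hnf
  rcases isUnit_iff.1 hunit with h1 | h1
  · rw [h1, mul_one] at hu
    rw [hu] at hc
    have hY : cY ϖ = 0 := by omega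
    rw [hY] at hnf
    have h2 : (p : ℤ) = cX ϖ * cX ϖ := by rw [hnf]; ring
    have h3 : p = (cX ϖ).natAbs * (cX ϖ).natAbs := by
      have h4 := congrArg Int.natAbs h2
      rwa [Int.natAbs_natCast, Int.natAbs_mul] at h4
    rw [h3] at hp
    rcases Nat.prime_mul_iff.1 hp with ⟨h5, h6⟩ | ⟨h5, h6⟩ <;> exact absurd h6 h5.ne_one
  · rw [h1] at hu
    have h2 : cX (ϖ * -1) = -cX ϖ ∧ cY (ϖ * -1) = -cY ϖ := by
      rw [mul_neg, mul_one]
      apply cXY_of
      push_cast
      rw [co ϖ]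
      ring
    rw [hu, h2.1, h2.2] at hc
    have hY : cY ϖ = -2 * cX ϖ := by omega
    rw [hY] at hnf
    have h3 : (p : ℤ) = 7 * cX ϖ ^ 2 := by rw [hnf]; ring
    have h4 : 7 ∣ p := by
      have : (7 : ℤ) ∣ p := ⟨_, h3⟩
      exact_mod_cast this
    exact h7 ((Nat.prime_dvd_prime_iff_eq (by norm_num) hp).1 h4).symm

/-- a squarefree integer prime to seven is squarefree in the ring -/
lemma sqf_int {D : ℤ} (h : Squarefree D) (h7 : ¬ (7 : ℤ) ∣ D) : Squarefree ((D : ℤ) : RR) := by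
  have hD0 : ((D : ℤ) : RR) ≠ 0 := by exact_mod_cast h.ne_zero
  rw [squarefree_iff_irreducible_sq_not_dvd_of_ne_zero hD0]
  intro ϖ hirr hdvd
  have hϖ := hirr.prime
  rcases prime_cases hϖ with ⟨p, hp, hN⟩ | ⟨q, hq, hϖq⟩
  · have h1 := nR_dvd' hdvd
    rw [nR_mul, hN, nR_int'] at h1
    have hpD : (p : ℤ) ∣ D := by
      rw [← Int.pow_dvd_pow_iff two_ne_zero, sq]
      exact h1
    obtain ⟨D', hD'⟩ := hpD
    have hpZ : Prime (p : ℤ) := Nat.prime_iff_prime_int.1 hp
    have hpD' : ¬ (p : ℤ) ∣ D' := by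
      rintro ⟨c, hc⟩
      apply hpZ.not_isUnit
      apply h
      exact ⟨c, by rw [hD', hc]; ring⟩
    have hp7 : p ≠ 7 := by
      rintro rfl
      exact h7 ⟨D', hD'⟩
    have e1 : ((D : ℤ) : RR) = ϖ * (cj ϖ * (D' : RR)) := by
      rw [← mul_assoc, mul_cj_prime hN, hD']
      push_cast
      rfl
    rw [e1] at hdvd
    have h2 : ϖ ∣ cj ϖ * (D' : RR) := (mul_dvd_mul_iff_left hϖ.ne_zero).1 hdvd
    rcases hϖ.dvd_or_dvd h2 with h3 | h3
    · exact not_dvd_cj hp hp7 hϖ hN h3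
    · have h4 := nR_dvd' h3
      rw [hN, nR_int'] at h4
      exact hpD' (hpZ.dvd_of_dvd_pow h4)
  · have h1 : (((q : ℤ) * q : ℤ) : RR) ∣ ((D : ℤ) : RR) := by
      have e1 : (((q : ℤ) * q : ℤ) : RR) = ϖ * ϖ := by
        rcases hϖq with h2 | h2 <;> rw [h2] <;> push_cast <;> ring
      rw [e1]
      exact hdvd
    have h2 := int_dvd h1
    exact (Nat.prime_iff_prime_int.1 hq.pr).not_isUnit (h _ h2)

/-- the rational prime below -/
noncomputable def blw (p : RR) : ℕ := (nR p).natAbs.minFac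

lemma blw_iff {ϖ : RR} (h : Prime ϖ) {q : ℕ} (hq : q.Prime) : blw ϖ = q ↔ ϖ ∣ (q : RR) := by
  unfold blw
  rcases prime_cases h with ⟨p, hp, hN⟩ | ⟨p, hp, hϖ⟩
  · rw [hN, Int.natAbs_natCast, hp.minFac_eq]
    constructor
    · rintro rfl
      exact ⟨cj ϖ, (mul_cj_prime hN).symm⟩
    · intro h1
      have h2 := nR_dvd' h1
      rw [hN, nR_nat] at h2
      have h3 : p ∣ q ^ 2 := by exact_mod_cast h2
      exact (Nat.prime_dvd_prime_iff_eq hp hq).1 (hp.dvd_of_dvd_pow h3)
  · have hN : nR ϖ = (p : ℤ) ^ 2 := by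
      rcases hϖ with h1 | h1
      · rw [h1, nR_nat]
      · have e : -(p : RR) = (p : RR) * -1 := by ring
        have e2 : ((-1 : ℤ) : RR) = -1 := by push_cast; rfl
        rw [h1, e, nR_mul, nR_nat, ← e2, nR_int']
        ring
    have hN' : (nR ϖ).natAbs = p ^ 2 := by
      rw [hN, Int.natAbs_pow, Int.natAbs_natCast]
    rw [hN', hp.pr.pow_minFac two_ne_zero]
    constructor
    · rintro rfl
      rcases hϖ with h1 | h1 <;> rw [h1]
      rw [neg_dvd]
    · intro h1
      have h2 := nR_dvd' h1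
      rw [hN, nR_nat] at h2
      have h3 : p ^ 2 ∣ q ^ 2 := by exact_mod_cast h2
      exact (Nat.prime_dvd_prime_iff_eq hp.pr hq).1 ((Nat.pow_dvd_pow_iff two_ne_zero).1 h3)

lemma jac_prod (m : ℤ) {S : Finset ℕ} (hS : ∀ q ∈ S, q.Prime) :
    ∏ q ∈ S, jacobiSym m q = jacobiSym m (∏ q ∈ S, q) := by
  induction S using Finset.induction_on with
  | empty => simp
  | insert q S hq ih =>
    rw [Finset.prod_insert hq, Finset.prod_insert hq,
      ih fun p hp => hS p (Finset.mem_insert_of_mem hp), jacobiSym.mul_right']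
    · exact (hS q (Finset.mem_insert_self _ _)).ne_zero
    · exact Finset.prod_ne_zero_iff.2 fun p hp => (hS p (Finset.mem_insert_of_mem hp)).ne_zero

/-- the sign normalisation -/
noncomputable def nz (x : RR) : RR := if r4 x = 1 then x else -x

lemma nz_sy (x g : RR) : sy (nz x) g = sy x g := by
  unfold nz
  split_ifs
  · rfl
  · exact sy_negm x g

lemma nz_assoc (x : RR) : Associated x (nz x) := by
  unfold nz
  split_ifs
  · exact Associated.refl x
  · exact (Associated.refl x).neg_right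

lemma r4_unit' {x : RR} (h : r4 x = 1 ∨ r4 x = 3) : r4 (nz x) = 1 := by
  unfold nz
  split_ifs with h1
  · exact h1
  · rw [map_neg, h.resolve_left h1]
    decide

/-- normalised prime elements which are associated are equal -/
lemma eq_of_assoc {x y : RR} (h : Associated x y) (hx : r4 x = 1) (hy : r4 y = 1) : x = y := by
  obtain ⟨u, hu⟩ := h
  rcases isUnit_iff.1 u.isUnit with h1 | h1
  · rw [h1, mul_one] at hu
    exact hu
  · exfalso
    rw [h1] at hu
    rw [← hu, map_mul, hx, one_mul, map_neg, map_one] at hy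
    revert hy
    decide

section

variable {D : ℤ} (hsq : Squarefree D) (h7 : ¬ (7 : ℤ) ∣ D) {j : ℤ} (hj : D = 1 + 4 * j)
  {S : Finset RR} (hS : ∀ p, p ∈ S ↔ Prime p ∧ p ∣ ((D : ℤ) : RR) ∧ r4 p = 1)

include hj in
lemma r4_of_dvd {x : RR} (hx : x ∣ ((D : ℤ) : RR)) : r4 x = 1 ∨ r4 x = 3 := by
  obtain ⟨c, hc⟩ := hx
  have h1 := congrArg r4 hc
  rw [hj, map_mul] at h1
  have h2 : r4 (((1 + 4 * j : ℤ)) : RR) = 1 := by
    push_cast
    rw [map_add, map_mul, map_one, map_ofNat]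
    have : (4 : ZMod 4) = 0 := by decide
    rw [this, zero_mul, add_zero]
  rw [h2] at h1
  revert h1
  generalize r4 x = s
  generalize r4 c = t
  revert s t
  decide

include hsq h7 hj hS in
/-- the symbols modulo the prime elements above one prime number -/
lemma fib {q : ℕ} (hq : q ∈ D.natAbs.primeFactors) (g : RR) :
    ∏ p ∈ S.filter (fun p => blw p = q), sy p g = ((jacobiSym (nR g) q : ℤ) : ℂ) := by
  have hqp := Nat.prime_of_mem_primeFactors hq
  have hqD : (q : ℤ) ∣ D := Int.natCast_dvd.2 (Nat.dvd_of_mem_primeFactors hq)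
  have hqD' : (q : RR) ∣ ((D : ℤ) : RR) := by
    obtain ⟨c, hc⟩ := hqD
    exact ⟨(c : RR), by rw [hc]; push_cast; rfl⟩
  have hq7 : q ≠ 7 := by
    rintro rfl
    exact h7 (by exact_mod_cast hqD)
  have hq0 : (q : RR) ≠ 0 := by exact_mod_cast hqp.ne_zero
  have hnu : ¬ IsUnit (q : RR) := by
    intro h
    have h1 : nR (q : RR) = 1 := by
      rcases isUnit_iff.1 h with h2 | h2 <;> rw [h2]
      · have := nR_int' 1
        push_cast at this
        exact this
      · have := nR_int' (-1)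
        push_cast at this
        rw [this]
    rw [nR_nat] at h1
    have h2 : q ^ 2 = 1 := by exact_mod_cast h1
    exact hqp.one_lt.ne' ((Nat.pow_eq_one.1 h2).resolve_right two_ne_zero)
  obtain ⟨ϖ, hirr, hϖq⟩ := WfDvdMonoid.exists_irreducible_factor hnu hq0
  have hϖ := hirr.prime
  have hmem : ∀ p, p ∈ S.filter (fun p => blw p = q) ↔ Prime p ∧ p ∣ (q : RR) ∧ r4 p = 1 := by
    intro p
    rw [Finset.mem_filter, hS]
    constructor
    · rintro ⟨⟨h1, h2, h3⟩, h4⟩
      exact ⟨h1, (blw_iff h1 hqp).1 h4, h3⟩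
    · rintro ⟨h1, h2, h3⟩
      exact ⟨⟨h1, h2.trans hqD', h3⟩, (blw_iff h1 hqp).2 h2⟩
  have hr := r4_of_dvd hj (hϖq.trans hqD')
  rcases prime_cases hϖ with ⟨p, hp, hN⟩ | ⟨p, hp, hϖp⟩
  · -- the split case
    have hpq : p = q := by
      have h2 := nR_dvd' hϖq
      rw [hN, nR_nat] at h2
      have h3 : p ∣ q ^ 2 := by exact_mod_cast h2
      exact (Nat.prime_dvd_prime_iff_eq hp hqp).1 (hp.dvd_of_dvd_pow h3)
    subst hpq
    have hcj : Prime (cj ϖ) := prime_cj hϖ
    have hmul := mul_cj_prime hN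
    have hr' := r4_of_dvd hj (x := cj ϖ) ((show cj ϖ ∣ (p : RR) from
      ⟨ϖ, by rw [mul_comm]; exact hmul.symm⟩).trans hqD')
    have hset : S.filter (fun x => blw x = p) = {nz ϖ, nz (cj ϖ)} := by
      ext x
      rw [hmem, Finset.mem_insert, Finset.mem_singleton]
      constructor
      · rintro ⟨h1, h2, h3⟩
        rw [← hmul] at h2
        rcases h1.dvd_or_dvd h2 with h4 | h4
        · left
          exact eq_of_assoc ((h1.associated_of_dvd hϖ h4).trans (nz_assoc ϖ)) h3 (r4_unit' hr)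
        · right
          exact eq_of_assoc ((h1.associated_of_dvd hcj h4).trans (nz_assoc _)) h3 (r4_unit' hr')
      · rintro (rfl | rfl)
        · exact ⟨(nz_assoc ϖ).prime hϖ, ((nz_assoc ϖ).symm.dvd).trans hϖq, r4_unit' hr⟩
        · refine ⟨(nz_assoc _).prime hcj, ((nz_assoc _).symm.dvd).trans ?_, r4_unit' hr'⟩
          exact ⟨ϖ, by rw [mul_comm]; exact hmul.symm⟩
    have hne : nz ϖ ≠ nz (cj ϖ) := by
      intro h
      apply not_dvd_cj hp hq7 hϖ hN
      exact ((nz_assoc ϖ).dvd).trans (by rw [h]; exact (nz_assoc _).symm.dvd)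
    rw [hset, Finset.prod_pair hne, nz_sy, nz_sy]
    have h1 : sy (cj ϖ) g = sy ϖ (cj g) := by
      conv_lhs => rw [← cj_cj g]
      exact Pool.Agent.Y279.SG.sy_cj _ _
    rw [h1, ← sy_mul_deg hp hN, mul_cj, sy_int hp hN]
    rfl
  · -- the inert case
    have hpq : p = q := by
      have h1 : (p : RR) ∣ (q : RR) := by
        rcases hϖp with h2 | h2
        · rwa [h2] at hϖq
        · rwa [h2, neg_dvd] at hϖq
      have h2 : ((p : ℤ) : RR) ∣ ((q : ℤ) : RR) := by exact_mod_cast h1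
      have h3 : p ∣ q := by exact_mod_cast int_dvd h2
      exact (Nat.prime_dvd_prime_iff_eq hp.pr hqp).1 h3
    subst hpq
    have hassoc : Associated ϖ (p : RR) := by
      rcases hϖp with h2 | h2
      · rw [h2]
      · rw [h2]
        exact (Associated.refl _).neg_left
    have hset : S.filter (fun x => blw x = p) = {nz ϖ} := by
      ext x
      rw [hmem, Finset.mem_singleton]
      constructor
      · rintro ⟨h1, h2, h3⟩
        have h4 : x ∣ ϖ := h2.trans hassoc.symm.dvd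
        exact eq_of_assoc ((h1.associated_of_dvd hϖ h4).trans (nz_assoc ϖ)) h3 (r4_unit' hr)
      · rintro rfl
        exact ⟨(nz_assoc ϖ).prime hϖ, ((nz_assoc ϖ).symm.dvd).trans hϖq, r4_unit' hr⟩
    rw [hset, Finset.prod_singleton, nz_sy]
    have h1 : sy ϖ g = sy (p : RR) g := by
      rcases hϖp with h2 | h2
      · rw [h2]
      · rw [h2, sy_negm]
    rw [h1, hp.sy]
    rfl

include hsq h7 hj hS in
/-- **the product of the symbols** -/
theorem sym_prod (g : RR) : ∏ p ∈ S, sy p g = ((jacobiSym (nR g) D.natAbs : ℤ) : ℂ) := by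
  have hsqN : Squarefree D.natAbs := Int.squarefree_natAbs.2 hsq
  have hmaps : ∀ p ∈ S, blw p ∈ D.natAbs.primeFactors := by
    intro p hp
    obtain ⟨h1, h2, h3⟩ := (hS p).1 hp
    have hD0 : D.natAbs ≠ 0 := hsqN.ne_zero
    have hbp : (blw p).Prime := by
      unfold blw
      apply Nat.minFac_prime
      intro h4
      apply h1.not_isUnit
      have h5 : nR p = 1 := by
        have := Int.natAbs_of_nonneg (nR_nonneg p)
        rw [h4] at this
        exact_mod_cast this.symm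
      refine IsUnit.of_mul_eq_one (cj p) ?_
      rw [mul_cj, h5, Int.cast_one]
    rw [Nat.mem_primeFactors]
    refine ⟨hbp, ?_, hD0⟩
    have h4 := nR_dvd' h2
    rw [nR_int'] at h4
    have h5 : blw p ∣ (nR p).natAbs := Nat.minFac_dvd _
    have h6 : (nR p).natAbs ∣ D.natAbs ^ 2 := by
      rw [← Int.natAbs_pow]
      exact Int.natAbs_dvd_natAbs.2 h4
    exact hbp.dvd_of_dvd_pow (h5.trans h6)
  rw [← Finset.prod_fiberwise_of_maps_to hmaps,
    Finset.prod_congr rfl fun q hq => fib hsq h7 hj hS hq g, ← Int.cast_prod,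
    jac_prod _ fun q hq => Nat.prime_of_mem_primeFactors hq,
    Nat.prod_primeFactors_of_squarefree hsqN]

end

end Pool.Agent.N818.TC
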