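import Pool.Agent.TH841.NF.Ker
import Pool.Agent.Y698.Cp
import Pool.Agent.R413.SJ.ShaQ

/-!
# The restriction of the Tate-Shafarevich group from `ℚ` to a number field
-/

set_option autoImplicit false
set_option linter.unusedSectionVars false

attribute [-instance] DivisionRing.toRatAlgebra

namespace Pool.Agent.N818.TC

open WeierstrassCurve NumberField IsDedekindDomain

open Pool.Agent.TH841.NF
open Pool.Agent.TH841.SH.D (Pt act Gal Coch IsCoc IsCob LocTriv cob)

section res

variable {F : Type} [Field F] [Algebra ℚ F] {E : WeierstrassCurve ℚ} {W : WeierstrassCurve F}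
  (hW : Sc (algebraMap ℚ F) 1 E W) (e : AlgebraicClosure F ≃+* Qb)

/-- the restriction of a cochain -/
noncomputable def rs (f : Coch E) : Coch W := fun σ =>
  tm (sc_any' hW (e.symm : Qb →+* AlgebraicClosure F)) (f (cQ e σ))

lemma sc_idQ (C : Type) [Field C] [Algebra ℚ C] :
    Sc (RingHom.id C) 1 (E.baseChange C) (E.baseChange C) := by
  refine ⟨one_ne_zero, ?_, ?_, ?_, ?_, ?_⟩ <;> simp

lemma sc_idF (C : Type) [Field C] [Algebra F C] :
    Sc (RingHom.id C) 1 (W.baseChange C) (W.baseChange C) := by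
  refine ⟨one_ne_zero, ?_, ?_, ?_, ?_, ?_⟩ <;> simp

lemma up_dn (Q : Pt E Qb) : tm (sc_any hW (e : AlgebraicClosure F →+* Qb))
    (tm (sc_any' hW (e.symm : Qb →+* AlgebraicClosure F)) Q) = Q := by
  rw [tm_tm _ _ (sc_idQ (E := E) Qb) (fun x => e.apply_symm_apply x) (by rw [map_one, mul_one]),
    tm_id _ (fun x => rfl) rfl]

lemma dn_up (Q : Pt W (AlgebraicClosure F)) :
    tm (sc_any' hW (e.symm : Qb →+* AlgebraicClosure F))
      (tm (sc_any hW (e : AlgebraicClosure F →+* Qb)) Q) = Q := by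
  rw [tm_tm _ _ (sc_idF (W := W) (AlgebraicClosure F)) (fun x => e.symm_apply_apply x)
    (by rw [map_one, mul_one]), tm_id _ (fun x => rfl) rfl]

lemma up_rs (f : Coch E) (σ : Gal F) :
    tm (sc_any hW (e : AlgebraicClosure F →+* Qb)) (rs hW e f σ) = f (cQ e σ) :=
  up_dn hW e _

lemma cQ_mul (σ τ : Gal F) : cQ e (σ * τ) = cQ e σ * cQ e τ := by
  refine AlgEquiv.ext fun x => ?_
  show e (σ (τ (e.symm x))) = e (σ (e.symm (e (τ (e.symm x)))))
  rw [RingEquiv.symm_apply_apply]

/-- the actions -/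
lemma dn_act (σ : Gal F) (Q : Pt E Qb) :
    tm (sc_any' hW (e.symm : Qb →+* AlgebraicClosure F)) (aG E (cQ e σ) Q) =
      act W σ.toAlgHom (tm (sc_any' hW (e.symm : Qb →+* AlgebraicClosure F)) Q) := by
  apply tm_inj (sc_any hW (e : AlgebraicClosure F →+* Qb))
  rw [up_dn hW e]
  have h1 := tr_act hW e (cQ_fx e σ) (tm (sc_any' hW (e.symm : Qb →+* AlgebraicClosure F)) Q)
  rw [cF_cQ, up_dn hW e] at h1
  exact h1.symm

lemma rs_add (f g : Coch E) : rs hW e (f + g) = rs hW e f + rs hW e g := by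
  funext σ
  exact map_add _ _ _

/-- the restriction of a coboundary -/
lemma rs_cob {f : Coch E} (h : IsCob E f) : IsCob W (rs hW e f) := by
  obtain ⟨P, hP⟩ := h
  refine ⟨tm (sc_any' hW (e.symm : Qb →+* AlgebraicClosure F)) P, fun σ => ?_⟩
  rw [← dn_act hW e, ← map_sub]
  exact congrArg _ (hP (cQ e σ))

/-- the restriction of a cocycle -/
lemma rs_coc {f : Coch E} (h : IsCoc E f) : IsCoc W (rs hW e f) := by
  classical
  obtain ⟨S, hS⟩ := coc_fin h
  refine coc_of_fin (fun σ τ => ?_) (S.image fun x => e.symm x) fun τ hτ => ?_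
  · show tm _ (f (cQ e (σ * τ))) = _
    rw [cQ_mul, h.2, map_add]
    congr 1
    exact dn_act hW e σ _
  · show tm _ (f (cQ e τ)) = 0
    rw [hS (cQ e τ) fun x hx => ?_, map_zero]
    show e (τ (e.symm x)) = x
    rw [hτ _ (Finset.mem_image_of_mem _ hx), RingEquiv.apply_symm_apply]

/-- the restriction of a locally trivial cochain -/
lemma rs_loc {K : Type} [Field K] [Algebra ℚ K] [Algebra F K] {f : Coch E} (h : LocTriv E K f) :
    LocTriv W K (rs hW e f) := by
  intro ι
  let φ : Qb →+* AlgebraicClosure K :=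
    (ι : AlgebraicClosure F →+* AlgebraicClosure K).comp (e.symm : Qb →+* AlgebraicClosure F)
  let ι' : Qb →ₐ[ℚ] AlgebraicClosure K :=
    { φ with commutes' := fun x => rat_hom (φ.comp (algebraMap ℚ Qb)) x }
  obtain ⟨P, hP⟩ := h ι'
  have S1 : Sc (RingHom.id (AlgebraicClosure K)) 1 (E.baseChange (AlgebraicClosure K))
    (W.baseChange (AlgebraicClosure K)) := sc_any' hW (RingHom.id (AlgebraicClosure K))
  have S2 : Sc φ 1 (E.baseChange Qb) (W.baseChange (AlgebraicClosure K)) := sc_any' hW φ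
  refine ⟨tm S1 P, fun τ σ hτ => ?_⟩
  have h1 := hP τ (cQ e σ) (fun x => by
    show τ (ι (e.symm x)) = ι (e.symm (e (σ (e.symm x))))
    rw [RingEquiv.symm_apply_apply, hτ])
  have h2 := congrArg (tm S1) h1
  rw [map_sub, act_tm (W := E) (W'' := W) ι' S1 S2 (fun x => rfl)] at h2
  have h3 : act W ι (tm (sc_any' hW (e.symm : Qb →+* AlgebraicClosure F)) (f (cQ e σ))) =
    tm S2 (f (cQ e σ)) := tm_act _ ι S2 (fun x => rfl) (map_one _).symm _
  have S3 : Sc ((τ : AlgebraicClosure K ≃+* AlgebraicClosure K) : AlgebraicClosure K →+*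
      AlgebraicClosure K) 1 (E.baseChange (AlgebraicClosure K))
        (W.baseChange (AlgebraicClosure K)) := sc_any' hW _
  have h4 : tm S1 (act E (τ.toAlgHom.restrictScalars ℚ) P) = tm S3 P :=
    act_tm (W := E) (W'' := W) (τ.toAlgHom.restrictScalars ℚ) S1 S3 (fun x => rfl) P
  have h5 : act W (τ.toAlgHom.restrictScalars F) (tm S1 P) = tm S3 P :=
    tm_act S1 (τ.toAlgHom.restrictScalars F) S3 (fun x => rfl) (map_one _).symm P
  rw [h4, ← h5] at h2
  exact h3.trans h2

end res

section sha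

variable {F : Type} [Field F] [NumberField F] [Algebra ℚ F] {E : WeierstrassCurve ℚ}
  {W : WeierstrassCurve F} (hW : Sc (algebraMap ℚ F) 1 E W) (e : AlgebraicClosure F ≃+* Qb)

lemma loc_ringQ {K K' : Type} [Field K] [Field K'] [Algebra ℚ K] [Algebra ℚ K'] (β : K →+* K')
    {f : Coch E} (h : LocTriv E K f) : LocTriv E K' f :=
  Pool.Agent.Y698.loc_mono E β (fun x => rat_hom (β.comp (algebraMap ℚ K)) x) h

/-- **the restriction of a cocycle of the Tate-Shafarevich group** -/
theorem rs_sha {f : Coch E} (h : Pool.Agent.TH841.SH.D.IsShaCoc E f) :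
    Pool.Agent.TH841.NF.D.IsShaCoc W (rs hW e f) := by
  have h' := (Pool.Agent.R413.SJ.ShaQ.sha_iff E f).2 h
  refine ⟨rs_coc hW e h.1, fun v => ?_, fun v => ?_⟩
  · let iv : Algebra ℚ (v.adicCompletion F) :=
      ((algebraMap F (v.adicCompletion F)).comp (algebraMap ℚ F)).toAlgebra
    exact rs_loc hW e (loc_ringQ (Pool.Agent.Y698.jx ℚ v) (h'.2.1 (Pool.Agent.Y698.dn ℚ v)))
  · let iv : Algebra ℚ v.Completion :=
      ((algebraMap F v.Completion).comp (algebraMap ℚ F)).toAlgebra
    rcases v.isReal_or_isComplex with hv | hv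
    · exact rs_loc hW e (loc_ringQ ((InfinitePlace.Completion.ringEquivRealOfIsReal hv).symm :
        ℝ →+* v.Completion) h.2.2)
    · exact rs_loc hW e (loc_ringQ (((InfinitePlace.Completion.ringEquivComplexOfIsComplex
        hv).symm : ℂ →+* v.Completion).comp Complex.ofRealHom) h.2.2)

end sha

end Pool.Agent.N818.TC
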