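import Pool.Agent.N818.TC.Res
import Pool.Agent.N818.TC.Cob
import Pool.Agent.N818.TC.Fin
import Pool.Agent.TH841.SH.Alg2

/-!
# The Tate-Shafarevich group over `ℚ` from the one over `ℚ(√-7)`
-/

set_option autoImplicit false
set_option linter.unusedSectionVars false

attribute [-instance] DivisionRing.toRatAlgebra

namespace Pool.Agent.N818.TC

open WeierstrassCurve NumberField IsDedekindDomain

open Pool.Agent.TH841.NF
open Pool.Agent.TH841.SH (IsR)
open Pool.Agent.TH841.SH.D (Pt act Gal Coch IsCoc IsCob LocTriv cob)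

section abs

variable {B : Type} [AddCommGroup B]

lemma odd_mul {U : B} (h4 : ∀ n : ℕ, (n • U + n • U) + (n • U + n • U) = 0 → n • U + n • U = 0) :
    ∀ n : ℕ, 0 < n → n • U = 0 → ∃ l : ℕ, (2 * l + 1) • U + (2 * l + 1) • U = 0 := by
  intro n
  induction n using Nat.strong_induction_on with
  | _ n ih =>
    intro hn h
    rcases Nat.even_or_odd' n with ⟨k, rfl | rfl⟩
    · rcases Nat.even_or_odd' k with ⟨j, rfl | rfl⟩
      · refine ih (2 * j) (by omega) (by omega) ?_
        have h1 := h4 j (by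
          rw [← h, ← add_nsmul, ← add_nsmul]
          congr 1
          ring)
        rw [← h1, ← add_nsmul]
        congr 1
        ring
      · refine ⟨j, ?_⟩
        rw [← h, ← add_nsmul]
        congr 1
        ring
    · exact ⟨k, by rw [h, add_zero]⟩

lemma h1_zero (A : AddSubgroup B) (ρ : B →+ B) {Ta Tb : B} (hTa : Ta ∈ A) (hT : ρ Ta = Tb)
    (htor : ∀ X ∈ A, X + X = 0 → ρ X = X → X = 0 ∨ X = Tb - Ta)
    (h4 : ∀ X ∈ A, (X + X) + (X + X) = 0 → X + X = 0) {U : B} (hUA : U ∈ A)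
    (hfin : ∃ n : ℕ, 0 < n ∧ n • U = 0) (hU : U + ρ U = 0) : ∃ V ∈ A, U = ρ V - V := by
  obtain ⟨n, hn, hn0⟩ := hfin
  obtain ⟨l, hl⟩ := odd_mul (U := U) (fun n h => h4 _ (A.nsmul_mem hUA n) h) n hn hn0
  have hρU : ρ U = -U := eq_neg_of_add_eq_zero_right hU
  have hX : ρ ((2 * l + 1) • U) = (2 * l + 1) • U := by
    rw [map_nsmul, hρU, smul_neg]
    exact (eq_neg_of_add_eq_zero_left hl).symm
  have key : ∀ T ∈ A, ρ T - T = (2 * l + 1) • U → ∃ V ∈ A, U = ρ V - V := by
    intro T hT h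
    refine ⟨l • U + T, A.add_mem (A.nsmul_mem hUA l) hT, ?_⟩
    rw [map_add, map_nsmul, hρU]
    have h1 : l • -U + ρ T - (l • U + T) = (ρ T - T) - (2 * l) • U := by
      rw [smul_neg, two_mul, add_nsmul]
      abel
    rw [h1, h, add_nsmul, one_nsmul, add_sub_cancel_left]
  rcases htor _ (A.nsmul_mem hUA _) hl hX with h | h
  · exact key 0 A.zero_mem (by rw [h, map_zero, sub_zero])
  · exact key Ta hTa (by rw [h, hT])

end abs

section tors

variable {K : Type} [Field K] [CharZero K] {a D : K}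

lemma isR_SE (ha : a ^ 2 = a - 2) (L : Type) [Field L] [Algebra K L] :
    IsR ((SE D).baseChange L) (algebraMap K L (rt a D)) (algebraMap K L (rt (1 - a) D))
      (algebraMap K L (7 * D)) := by
  refine ⟨map_zero _, ?_, map_zero _, ?_, ?_⟩
  · show algebraMap K L 0 = _
    rw [← map_add, ← map_add, ← map_neg]
    congr 1
    unfold rt
    ring
  · show algebraMap K L (-35 * D ^ 2) = _
    rw [← map_mul, ← map_mul, ← map_mul, ← map_add, ← map_add]
    congr 1
    unfold rt
    linear_combination (D ^ 2) * ha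
  · show algebraMap K L (-98 * D ^ 3) = _
    rw [← map_mul, ← map_mul, ← map_neg]
    congr 1
    unfold rt
    linear_combination (-7 * D ^ 3) * ha

lemma seven_rt (ha : a ^ 2 = a - 2) (hD : D ≠ 0) : 7 * D ≠ rt a D := by
  unfold rt
  intro h
  have h1 : D * (a - 11) = 0 := by linear_combination -h
  rcases mul_eq_zero.1 h1 with h2 | h2
  · exact hD h2
  · have h3 : a = 11 := by linear_combination h2
    rw [h3] at ha
    norm_num at ha

/-- no rational number has the square `7 q²` -/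
lemma seven_nsq {q r : ℚ} (hr : r ≠ 0) (h : q ^ 2 = 7 * r ^ 2) : False := by
  have h1 : IsSquare (7 : ℚ) := ⟨q / r, by
    field_simp
    linear_combination -h⟩
  have h2 : IsSquare (((7 : ℕ)) : ℚ) := by exact_mod_cast h1
  rw [Rat.isSquare_natCast_iff] at h2
  obtain ⟨n, hn⟩ := h2
  have h3 : n ≤ 2 := by nlinarith
  interval_cases n <;> omega

/-- the differences of the abscissas of the points of order two are not squares -/
lemma nsq_K [Algebra ℚ K] (ha : a ^ 2 = a - 2) (hD : D ≠ 0) (c : K →+* K)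
    (hc : ∀ x, c (c x) = x) (hca : c a = 1 - a)
    (hfix : ∀ x : K, c x = x → ∃ q : ℚ, algebraMap ℚ K q = x) {D₀ : ℚ}
    (hD₀ : algebraMap ℚ K D₀ = D) (hcD : c D = D) (s : K) :
    s ^ 2 ≠ rt a D - rt (1 - a) D ∧ s ^ 2 ≠ rt (1 - a) D - rt a D ∧ s ^ 2 ≠ 7 * D - rt a D := by
  have hD0' : D₀ ≠ 0 := by
    rintro rfl
    rw [map_zero] at hD₀
    exact hD hD₀.symm
  have key : ∀ x : K, x * c x = 7 * D ^ 2 ∨ x * c x = 112 * D ^ 2 → s ^ 2 ≠ x := by
    rintro x hx rfl
    have h1 : c (s * c s) = s * c s := by rw [map_mul, hc, mul_comm]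
    obtain ⟨q, hq⟩ := hfix _ h1
    have h2 : (s * c s) ^ 2 = s ^ 2 * c (s ^ 2) := by rw [map_pow]; ring
    rw [← hq] at h2
    rcases hx with hx | hx
    · rw [hx, ← hD₀] at h2
      have h3 : algebraMap ℚ K (q ^ 2) = algebraMap ℚ K (7 * D₀ ^ 2) := by
        rw [map_pow, map_mul, map_pow, map_ofNat, h2]
      exact seven_nsq hD0' ((algebraMap ℚ K).injective h3)
    · rw [hx, ← hD₀] at h2
      have h3 : algebraMap ℚ K (q ^ 2) = algebraMap ℚ K (112 * D₀ ^ 2) := by
        rw [map_pow, map_mul, map_pow, map_ofNat, h2]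
      have h4 := (algebraMap ℚ K).injective h3
      exact seven_nsq (q := q) (r := 4 * D₀) (mul_ne_zero (by norm_num) hD0')
        (by rw [h4]; ring)
  refine ⟨key _ (Or.inl ?_), key _ (Or.inl ?_), key _ (Or.inr ?_)⟩
  · unfold rt
    simp only [map_sub, map_mul, hcD, hca, map_one, map_ofNat]
    linear_combination (-4 * D ^ 2) * ha
  · unfold rt
    simp only [map_sub, map_mul, hcD, hca, map_one, map_ofNat]
    linear_combination (-4 * D ^ 2) * ha
  · unfold rt
    simp only [map_sub, map_mul, hcD, hca, map_one, map_ofNat]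
    linear_combination (-D ^ 2) * ha

open scoped Classical in
/-- no points of order four over `K` -/
lemma no_four [Algebra ℚ K] (ha : a ^ 2 = a - 2) (hD : D ≠ 0) (c : K →+* K)
    (hc : ∀ x, c (c x) = x) (hca : c a = 1 - a)
    (hfix : ∀ x : K, c x = x → ∃ q : ℚ, algebraMap ℚ K q = x) {D₀ : ℚ}
    (hD₀ : algebraMap ℚ K D₀ = D) (hcD : c D = D) (X : ((SE D).baseChange K).toAffine.Point)
    (hX : (X + X) + (X + X) = 0) : X + X = 0 := by
  have hR := isR_SE (D := D) ha K
  obtain ⟨s1, s2, s3⟩ := (fun s => nsq_K ha hD c hc hca hfix hD₀ hcD s)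
    |> fun h => (⟨fun s => (h s).1, fun s => (h s).2.1, fun s => (h s).2.2⟩ :
      (∀ s : K, s ^ 2 ≠ rt a D - rt (1 - a) D) ∧ (∀ s : K, s ^ 2 ≠ rt (1 - a) D - rt a D) ∧
        ∀ s : K, s ^ 2 ≠ 7 * D - rt a D)
  rcases X with _ | ⟨u, v, hn⟩
  · exact add_zero _
  · by_cases hv : v = 0
    · exact (hR.add_self two_ne_zero hn).2 hv
    · exfalso
      obtain ⟨x1, y1, hn1, e1, q1⟩ := hR.dup two_ne_zero hn hv
      obtain ⟨x2, y2, hn2, e2, q2⟩ := hR.rot.dup two_ne_zero hn hv
      rw [e1, Affine.Point.some.injEq] at e2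
      rw [e1] at hX
      obtain ⟨rfl, rfl⟩ := e2
      rcases hR.tors two_ne_zero hX with h | ⟨hn', h⟩ | ⟨hn', h⟩ | ⟨hn', h⟩
      · exact Affine.Point.some_ne_zero _ h
      · rw [Affine.Point.some.injEq] at h
        obtain ⟨rfl, -⟩ := h
        exact s1 _ q2.symm
      · rw [Affine.Point.some.injEq] at h
        obtain ⟨rfl, -⟩ := h
        exact s2 _ q1.symm
      · rw [Affine.Point.some.injEq] at h
        obtain ⟨rfl, -⟩ := h
        exact s3 _ q1.symm

end tors

end Pool.Agent.N818.TC
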